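import Pool.Agent.Q57.GG.GeoA
import Pool.Agent.Q57.FH.Fg

/-!
The asymptotic orders of the sections of `∑ i, μ i (K + Δ i) + j A` are computed by finitely many
sections, for covers of products of projective spaces.
-/

set_option autoImplicit false
set_option linter.overlappingInstances false
set_option linter.unusedSectionVars false
set_option maxHeartbeats 1000000

open FF MvPolynomial Pool.Agent.W603.LV Pool.Agent.W602.GT Pool.Agent.W602.Cov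
open Pool.Agent.TH756.PR Pool.Agent.TH122.AB Pool.Agent.TH756.PN
open Pool.Agent.Y169.CH Pool.Agent.Y169.CH.Cvr Pool.Agent.Q57.TP Pool.Agent.Q57.TQ
open Pool.Agent.Q57.GM Pool.Agent.Q57.GH Pool.Agent.Q57.FG Pool.Agent.Q57.FH

namespace Pool.Agent.Q57.GG

variable {r R N' p : ℕ} {n : Fin r → ℕ} {K : Type} [Field K] [Algebra ℂ K]
  {e : ((i : Fin r) × Fin (n i)) ≃ Fin (N' + 1)} {Φ : Blk ℂ (N' + 1) r} {C : Cvr Φ K R}
  {dF : Fin r → ℕ} {x : ∀ i, Fin (n i + 1) → K} {F : ∀ i, MvPolynomial (Fin (n i + 1)) ℂ}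
  {c : Fin p → (Fin r → ℕ) → ℚ} {δ : Fin p → Place ℂ K → ℚ}

/-- **The asymptotic orders**, with the sections of the lattice points. -/
theorem geoBx (H : Mon e C dF x F) (hdF : ∀ i, 1 ≤ dF i) (hΦ : Smo Φ)
    (hcf : ∀ i, CoefH C (c i) (δ i))
    (hmul : ∀ i v (r : ℕ), 1 ≤ r → Adm C.M C.a v → 1 - c i (r • v) ≤ r * (1 - c i v))
    {T : Finset (Fin r → ℕ)} (hTadm : ∀ s ∈ T, Adm C.M C.a s)
    (hTgen : ∀ v, Adm C.M C.a v → ∃ w : (Fin r → ℕ) → ℚ, (∀ s, 0 ≤ w s) ∧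
      (∀ k, ∑ s ∈ T, w s * s k ≤ v k) ∧ ∀ i, 1 - c i v ≤ ∑ s ∈ T, w s * (1 - c i s)) :
    ∃ (N0 : ℕ) (g : Fin N0 → Fin p →₀ ℕ) (ω : Fin N0 → (Fin (N' + 1) → Derivation ℂ K K) → K),
      (∀ b, g b ≠ 0 ∧ MSec (N' + 1) δ (g b) (ω b)) ∧
      (∀ b, ∃ (y : Fin r → ℤ) (l : ∀ i, Fin (n i + 1)), ω b = sH e dF x F (∑ i, g b i) y l ∧
        (∀ t, (dF t : ℤ) * y t ≤ ((dF t : ℤ) - n t - 1) * ((∑ i, g b i : ℕ) : ℤ)) ∧
        ∀ v, Adm C.M C.a v → ∑ i, (g b i : ℚ) * (1 - c i v) ≤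
          ((∑ k, (v k : ℤ) * y k : ℤ) : ℚ)) ∧
      (∀ (P : Place ℂ K) (S : Finset K) (D : Fin (N' + 1) → Derivation ℂ K K), ∃ C1 : ℕ,
        ∀ (μ : Fin p →₀ ℕ) (j : ℕ) (η : (Fin (N' + 1) → Derivation ℂ K K) → K), μ ≠ 0 →
          BSec (N' + 1) (av μ δ) S (∑ i, μ i) j η → η D = 0 ∨ ((∀ b, ω b D ≠ 0) ∧
            ∃ e : Fin N0 → ℕ,
              (∀ i, |∑ b, (e b : ℤ) * g b i - μ i| ≤ C1 * (j + 1)) ∧
              ∑ b, (e b : ℤ) * P.ord (ω b D) ≤ P.ord (η D) + C1 * (j + 1))) ∧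
      ∃ D0 : Fin (N' + 1) → Derivation ℂ K K, (∀ b, ω b D0 ≠ 0) ∧
        ∀ (m : ℕ) (η : (Fin (N' + 1) → Derivation ℂ K K) → K), IsPluri m η →
          ∀ D, η D * (∏ i, x i 0 ^ (n i + 1)) ^ m = om e D x ^ m * η D0 := by
  classical
  obtain ⟨L, hL, hden⟩ := Pool.Agent.Y169.TH.exists_den fun s : Fin p × T => 1 - c s.1 s.2.1
  choose q' hq' using hden
  obtain ⟨q, hq⟩ : ∃ q : Fin p → T → ℤ, q = fun i s => q' (i, s) := ⟨_, rfl⟩
  have hqs : ∀ i (s : T), (L : ℚ) * (1 - c i s.1) = q i s := fun i s => by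
    rw [hq]
    exact hq' (i, s)
  have hdpos : ∀ k, (0 : ℤ) < dF k := fun k => by exact_mod_cast hdF k
  obtain ⟨κ, hκd⟩ : ∃ κ : Fin r → ℤ, κ = fun t => (dF t : ℤ) - n t - 1 := ⟨_, rfl⟩
  have hκt : ∀ t, κ t = (dF t : ℤ) - n t - 1 := fun t => by rw [hκd]
  obtain ⟨gd, hgdd⟩ : ∃ gd : Fin r → Fin r → ℤ, gd = fun t b => if b = t then (dF t : ℤ) else 0 :=
    ⟨_, rfl⟩
  have hgds : ∀ (t : Fin r) (y : Fin r → ℤ), ∑ b, gd t b * y b = dF t * y t := by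
    intro t y
    rw [hgdd, Finset.sum_eq_single t]
    · dsimp only
      rw [if_pos rfl]
    · intro b _ hb
      dsimp only
      rw [if_neg hb, zero_mul]
    · intro h
      exact absurd (Finset.mem_univ _) h
  obtain ⟨G, hG1, hG2⟩ := gordan (consP T id gd κ L q) consP_inj
  -- the vector fields
  obtain ⟨D0, hD0'⟩ := exists_dual C.hZ
  have hD0 : ∀ i j, D0 i (C.Z j) = if i = j then 1 else 0 := by
    intro i j
    have h1 := congrFun (congrFun hD0' i) j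
    rw [Matrix.of_apply, Matrix.one_apply] at h1
    exact h1
  have hx0 : ∏ i, x i 0 ^ (n i + 1) ≠ 0 :=
    Finset.prod_ne_zero_iff.2 fun i _ => pow_ne_zero _ (H.hx i 0)
  have hom0 : om e D0 x ≠ 0 := by
    unfold om
    rw [← H.hZ, hD0', Matrix.det_one, mul_one]
    exact hx0
  -- the sections
  let I := {g // g ∈ G} × (∀ i, Fin (n i + 1))
  let eI : I ≃ Fin (Fintype.card I) := Fintype.equivFin I
  obtain ⟨ω, hωd⟩ : ∃ ω : Fin (Fintype.card I) → (Fin (N' + 1) → Derivation ℂ K K) → K,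
    ω = fun b => sH e dF x F (∑ i, toN (eI.symm b).1.1.1 i) (eI.symm b).1.1.2 (eI.symm b).2 :=
    ⟨_, rfl⟩
  obtain ⟨g, hgd⟩ : ∃ g : Fin (Fintype.card I) → Fin p →₀ ℕ,
    g = fun b => toN (eI.symm b).1.1.1 := ⟨_, rfl⟩
  have hex : ∀ b, ExP T id gd κ L q (eI.symm b).1.1 := fun b =>
    (hG1 _ (eI.symm b).1.2).2
  have hgi : ∀ b i, ((g b i : ℕ) : ℤ) = (eI.symm b).1.1.1 i := fun b i => by
    rw [hgd]
    exact toN_coe (hex b).nn i
  have hωne : ∀ D, om e D x ≠ 0 → ∀ b, ω b D ≠ 0 := by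
    intro D hD b
    rw [hωd]
    exact mul_ne_zero (pow_ne_zero _ hD) (fH_ne H _ _ _)
  have hdegE : ∀ b t, (dF t : ℤ) * (eI.symm b).1.1.2 t ≤ κ t * ∑ i, (eI.symm b).1.1.1 i := by
    intro b t
    have h1 := hex b (Sum.inr (Sum.inr (Sum.inr t)))
    rw [consP_deg, hgds] at h1
    linarith
  refine ⟨Fintype.card I, g, ω, fun b => ⟨?_, ?_⟩, fun b => ⟨(eI.symm b).1.1.2, (eI.symm b).2,
    ?_, fun t => ?_, fun v hv => ?_⟩, fun P S D => ?_, D0, hωne D0 hom0,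
    fun m η hη D => pluri_eqH H hD0 hη D⟩
  · -- the degrees are not zero
    intro h0
    have h1 : (eI.symm b).1.1.1 = 0 := by
      funext i
      rw [← hgi b i, h0]
      rfl
    refine (hG1 _ (eI.symm b).1.2).1 (Prod.ext h1 ?_)
    funext k
    have h2 := hdegE b k
    rw [h1] at h2
    simp only [Pi.zero_apply, Finset.sum_const_zero, mul_zero] at h2
    have h3 : 0 ≤ (eI.symm b).1.1.2 k := hex b (Sum.inr (Sum.inl k))
    have h4 := hdpos k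
    refine le_antisymm ?_ h3
    by_contra hcon
    push Not at hcon
    have h5 := mul_pos h4 hcon
    exact absurd h2 (not_le.2 h5)
  · -- sections
    refine bsec_msec ?_
    rw [hωd, hgd]
    dsimp only
    have hsm : ((∑ i, toN (eI.symm b).1.1.1 i : ℕ) : ℤ) = ∑ i, (eI.symm b).1.1.1 i := by
      push_cast
      exact Finset.sum_congr rfl fun i _ => toN_coe (hex b).nn i
    refine sH_sec H (av_coefH _ hcf) (fun t => ?_) (fun v hv => ?_) _
    · rw [hsm, ← hκt]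
      exact hdegE b t
    · obtain ⟨w, hw, hwv, hwc⟩ := hTgen v hv
      have h1 := exP_adm hL hqs (hex b) hw hwv hwc
      refine le_trans (le_of_eq ?_) h1
      rw [mul_sub, av_mul]
      push_cast
      rw [mul_one, ← Finset.sum_sub_distrib]
      refine Finset.sum_congr rfl fun i _ => ?_
      have h2 : ((toN (eI.symm b).1.1.1 i : ℕ) : ℚ) = (eI.symm b).1.1.1 i := by
        exact_mod_cast toN_coe (hex b).nn i
      rw [h2]
      ring
  · rw [hωd, hgd]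
  · have h1 : ((∑ i, g b i : ℕ) : ℤ) = ∑ i, (eI.symm b).1.1.1 i := by
      push_cast
      exact Finset.sum_congr rfl fun i _ => hgi b i
    rw [h1, ← hκt]
    exact hdegE b t
  · obtain ⟨w, hw, hwv, hwc⟩ := hTgen v hv
    have h1 := exP_adm hL hqs (hex b) hw hwv hwc
    refine le_trans (le_of_eq ?_) h1
    refine Finset.sum_congr rfl fun i _ => ?_
    have h2 : ((g b i : ℕ) : ℚ) = (eI.symm b).1.1.1 i := by exact_mod_cast hgi b i
    rw [h2]
  -- the orders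
  by_cases hbw : om e D x = 0
  · refine ⟨0, fun μ j η hμ hη => Or.inl ?_⟩
    have hm : ∑ i, μ i ≠ 0 := by
      intro h0
      apply hμ
      ext i
      exact Finset.sum_eq_zero_iff.1 h0 i (Finset.mem_univ i)
    have h1 := pluri_eqH H hD0 hη.1 D
    rw [hbw, zero_pow hm, zero_mul] at h1
    exact (mul_eq_zero.1 h1).resolve_right (pow_ne_zero _ hx0)
  obtain ⟨α, l, v, hdat⟩ := H.exists_dat P
  choose X hX using fun s : T => C.exists_dir (hTadm s.1 s.2).1 (hTadm s.1 s.2).2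
  obtain ⟨N0, β, Q, c1, hQ, hstr⟩ := sec_str_u C hΦ X hD0 S
  obtain ⟨o, ho⟩ : ∃ o : Fin r → ℤ, o = fun t => P.ord (x t 0) := ⟨_, rfl⟩
  have ho' : ∀ t, P.ord (x t 0) = o t := fun t => by rw [ho]
  obtain ⟨Z1, hZ1⟩ : ∃ Z1, Z1 = ∑ i, ((n i : ℤ) + 1) * α i := ⟨_, rfl⟩
  obtain ⟨Z2, hZ2⟩ : ∃ Z2, Z2 = ∑ i, ((n i : ℤ) + 1) * o i := ⟨_, rfl⟩
  obtain ⟨V, hV⟩ : ∃ V, V = ∑ i, (v i : ℤ) := ⟨_, rfl⟩
  obtain ⟨Z3, hZ3⟩ : ∃ Z3, Z3 = ∑ t, (dF t : ℤ) * (α t - o t) := ⟨_, rfl⟩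
  obtain ⟨B0, hB0⟩ : ∃ B0 : ℤ, B0 = P.ord (om e D x) - V - Z1 := ⟨_, rfl⟩
  obtain ⟨Cs, hCs⟩ := approx (consP T id gd κ L q) consP_inj
    (Sum.elim (fun _ => (L : ℤ) * c1) (Sum.elim (fun _ => 0) (Sum.elim (fun _ => 0)
      fun _ => (c1 : ℤ))))
    (fnl p r B0 fun k => (v k : ℤ))
  obtain ⟨B, hB⟩ : ∃ B : ℤ, B = ∑ i, |P.ord (β i)| := ⟨_, rfl⟩
  have hB0' : 0 ≤ B := by
    rw [hB]
    exact Finset.sum_nonneg fun _ _ => abs_nonneg _
  have hBle : ∀ i, - B ≤ P.ord (β i) := by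
    intro i
    have h1 := Finset.single_le_sum (f := fun i => |P.ord (β i)|) (fun _ _ => abs_nonneg _)
      (Finset.mem_univ i)
    have h2 := neg_abs_le (P.ord (β i))
    rw [hB]
    linarith
  obtain ⟨A, hA⟩ : ∃ A : ℤ, A = ∑ i, |α i - o i| := ⟨_, rfl⟩
  have hA0 : 0 ≤ A := by
    rw [hA]
    exact Finset.sum_nonneg fun _ _ => abs_nonneg _
  obtain ⟨C1, hC1⟩ : ∃ C1 : ℕ, (C1 : ℤ) = Cs + A * c1 + B + |P.ord Q| := by
    have h1 : 0 ≤ (Cs : ℤ) + A * c1 + B + |P.ord Q| := by positivity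
    exact ⟨_, Int.toNat_of_nonneg h1⟩
  refine ⟨C1, fun μ j η hμ hη => ?_⟩
  by_cases hηD : η D = 0
  · exact Or.inl hηD
  refine Or.inr ⟨hωne D hbw, ?_⟩
  obtain ⟨m, hm⟩ : ∃ m : ℕ, m = ∑ i, μ i := ⟨_, rfl⟩
  rw [← hm] at hη
  have hpl := pluri_eqH H hD0 hη.1 D
  have hη0 : η D0 ≠ 0 := by
    intro h0
    rw [h0, mul_zero] at hpl
    exact mul_ne_zero hηD (pow_ne_zero _ hx0) hpl
  obtain ⟨Rp, hR, hRs⟩ := hstr (av_coefH μ hcf) (fun v r hr hv => av_ray μ hr fun i =>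
    hmul i v r hr hv) m j η (bsec_sec hη)
  obtain ⟨z, hz⟩ : ∃ z, z = η D0 * C.Lam m := ⟨_, rfl⟩
  have hz0 : z ≠ 0 := by
    rw [hz]
    exact mul_ne_zero hη0 (C.Lam_ne m)
  rw [← hz] at hR
  have hsum : ∑ i, aeval C.Y (Rp i) * β i ≠ 0 := by
    rw [← hR]
    exact mul_ne_zero hz0 (pow_ne_zero _ hQ)
  have hYne : ∀ b, C.Y b ≠ 0 := fun b => C.ae_ne (Blk.yp_ne0 Φ b)
  obtain ⟨i, a, ha, hia⟩ := ord_sum_low P hYne Rp β hsum
  rw [← hR, P.ord_mul hz0 (pow_ne_zero _ hQ), P.ord_pow] at hia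
  obtain ⟨hwbd, hT1⟩ := hRs i a ha
  -- the lattice point
  obtain ⟨a', ha'⟩ : ∃ a' : Fin r → ℤ, a' = fun k => (a (Φ.c k) : ℤ) := ⟨_, rfl⟩
  obtain ⟨μ', hμ'⟩ : ∃ μ' : Fin p → ℤ, μ' = fun i => ((μ i : ℕ) : ℤ) := ⟨_, rfl⟩
  have hsumμ : ∑ i, μ' i = m := by
    rw [hμ', hm]
    push_cast
    rfl
  have hav : ∀ v, (m : ℚ) * av μ c v = ∑ i, (μ i : ℚ) * c i v := by
    intro v
    rw [hm]
    exact av_mul μ c v
  have hcons : ∀ s, - ((Sum.elim (fun _ => (L : ℤ) * c1) (Sum.elim (fun _ => 0)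
      (Sum.elim (fun _ => 0) fun _ => (c1 : ℤ))) :
        T ⊕ (Fin r ⊕ (Fin p ⊕ Fin r)) → ℤ) s * ((j + 1 : ℕ) : ℤ)) ≤
      consP T id gd κ L q (μ', a') s := by
    intro s
    rcases s with s | k | i' | t
    · rw [consP_vec, Sum.elim_inl]
      have h1 := hT1 s
      rw [hX] at h1
      have hLq : (0 : ℚ) < L := by exact_mod_cast hL
      have h2 := mul_le_mul_of_nonneg_left h1 hLq.le
      have h4 : ((∑ i, q i s * μ' i : ℤ) : ℚ) = L * ((1 - av μ c s.1) * m) := by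
        push_cast
        have h5 : (L : ℚ) * ((1 - av μ c s.1) * m) = L * (m - m * av μ c s.1) := by ring
        rw [h5, hav, hm, hμ']
        push_cast
        rw [← Finset.sum_sub_distrib, Finset.mul_sum]
        refine Finset.sum_congr rfl fun i _ => ?_
        rw [← hqs i s]
        ring
      have h3 : (((- ((L : ℤ) * c1 * ((j + 1 : ℕ) : ℤ)) : ℤ)) : ℚ) ≤
          ((L * ∑ k, (s.1 k : ℤ) * a' (id k) - ∑ i, q i s * μ' i : ℤ) : ℚ) := by
        rw [Int.cast_sub, h4, ha']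
        simp only [id]
        push_cast at h2 ⊢
        linarith
      exact_mod_cast h3
    · rw [consP_coord, Sum.elim_inr, Sum.elim_inl, zero_mul, neg_zero, ha']
      positivity
    · rw [consP_m, Sum.elim_inr, Sum.elim_inr, Sum.elim_inl, zero_mul, neg_zero, hμ']
      positivity
    · rw [consP_deg, Sum.elim_inr, Sum.elim_inr, Sum.elim_inr, hsumμ, hκt, hgds]
      have h1 := hwbd t
      rw [wbd_c, H.hΦD, H.hΦn] at h1
      push_cast at h1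
      have h2 : (0 : ℤ) ≤ ∑ b ∈ Finset.univ.erase (Φ.c t), (if Φ.τ b = t then (a b : ℤ) else 0) := by
        refine Finset.sum_nonneg fun b _ => ?_
        split_ifs
        · positivity
        · exact le_rfl
      rw [ha']
      push_cast
      linarith
  obtain ⟨γ0, hγ0, hγ0'⟩ := hCs (μ', a') (j + 1) hcons
  -- the monomial
  obtain ⟨e', he'⟩ := closure_comb G (hG2 γ0 hγ0)
  obtain ⟨ex, hexd⟩ : ∃ ex : Fin (Fintype.card I) → ℕ,
    ex = fun b => if (eI.symm b).2 = l then e' (eI.symm b).1.1 else 0 := ⟨_, rfl⟩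
  have hsumI : ∀ f : I → ℤ, ∑ b, (ex b : ℤ) * f (eI.symm b) =
      ∑ g : {g // g ∈ G}, (e' g.1 : ℤ) * f (g, l) := by
    intro f
    have h1 : ∑ b, (ex b : ℤ) * f (eI.symm b) =
        ∑ y : I, ((if y.2 = l then e' y.1.1 else 0 : ℕ) : ℤ) * f y := by
      rw [← Equiv.sum_comp eI.symm]
      exact Finset.sum_congr rfl fun b _ => by rw [hexd]
    rw [h1, Fintype.sum_prod_type]
    refine Finset.sum_congr rfl fun g _ => ?_
    rw [Finset.sum_eq_single l]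
    · rw [if_pos rfl]
    · intro l' _ hl'
      dsimp only
      rw [if_neg hl', Nat.cast_zero, zero_mul]
    · intro h
      exact absurd (Finset.mem_univ _) h
  have hsumG : ∀ f : ((Fin p → ℤ) × (Fin r → ℤ)) →+ ℤ,
      ∑ g : {g // g ∈ G}, ((e' g.1 : ℕ) : ℤ) * f g.1 = f γ0 := by
    intro f
    conv_rhs => rw [he', map_sum]
    rw [← Finset.sum_coe_sort G]
    exact Finset.sum_congr rfl fun b _ => by rw [map_nsmul, nsmul_eq_mul]
  have hCsC : (Cs : ℤ) ≤ C1 := by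
    rw [hC1]
    have : (0 : ℤ) ≤ A * c1 := by positivity
    have := abs_nonneg (P.ord Q)
    linarith
  refine ⟨ex, fun i => ?_, ?_⟩
  · have h1 := hγ0' (some i)
    rw [fnl_some, fnl_some, abs_sub_comm] at h1
    have h2 := hsumG (fnl p r B0 (fun k => (v k : ℤ)) (some i))
    simp only [fnl_some] at h2
    have h3 : ∑ b, ((ex b : ℕ) : ℤ) * ((g b i : ℕ) : ℤ) = γ0.1 i := by
      rw [← h2]
      have h4 := hsumI fun y => y.1.1.1 i
      rw [← h4]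
      exact Finset.sum_congr rfl fun b _ => by rw [hgi]
    rw [h3]
    have h4 : ((μ i : ℕ) : ℤ) = μ' i := by rw [hμ']
    rw [h4]
    refine h1.trans ?_
    push_cast
    exact mul_le_mul_of_nonneg_right hCsC (by positivity)
  · have hord : ∀ b, (eI.symm b).2 = l → P.ord (ω b D) =
        fnl p r B0 (fun k => (v k : ℤ)) none (eI.symm b).1.1 := by
      intro b hb
      have h2 : ((∑ i, toN (eI.symm b).1.1.1 i : ℕ) : ℤ) =
          ∑ i, (eI.symm b).1.1.1 i := by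
        push_cast
        exact Finset.sum_congr rfl fun i _ => toN_coe (hex b).nn i
      rw [hωd]
      dsimp only
      unfold sH
      rw [P.ord_mul (pow_ne_zero _ hbw) (fH_ne H _ _ _), P.ord_pow, ord_fH H hdat, h2, fnl_none,
        hB0, hb]
      obtain ⟨M0, hM0⟩ : ∃ M0, M0 = ∑ i, (eI.symm b).1.1.1 i := ⟨_, rfl⟩
      obtain ⟨y, hy⟩ : ∃ y, y = (eI.symm b).1.1.2 := ⟨_, rfl⟩
      rw [← hM0, ← hy]
      have hs3 : ∑ i, ((y i - M0) * (dF i * α i + v i) +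
          (((dF i : ℤ) - n i - 1) * M0 - dF i * y i) * P.ord (x i (l i))) =
          ∑ k, (v k : ℤ) * y k - M0 * V - M0 * Z1 := by
        rw [hV, hZ1, Finset.mul_sum, Finset.mul_sum, ← Finset.sum_sub_distrib,
          ← Finset.sum_sub_distrib]
        refine Finset.sum_congr rfl fun i _ => ?_
        rw [hdat.h2]
        ring
      rw [hs3]
      ring
    have h1 := hsumG (fnl p r B0 (fun k => (v k : ℤ)) none)
    have h2 : ∑ b, (ex b : ℤ) * P.ord (ω b D) =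
        fnl p r B0 (fun k => (v k : ℤ)) none γ0 := by
      rw [← h1]
      have h4 := hsumI fun y => fnl p r B0 (fun k => (v k : ℤ)) none y.1.1
      rw [← h4]
      refine Finset.sum_congr rfl fun b _ => ?_
      by_cases hb : (eI.symm b).2 = l
      · rw [hord b hb]
      · rw [hexd]
        dsimp only
        rw [if_neg hb, Nat.cast_zero, zero_mul, zero_mul]
    rw [h2]
    have h3 := (abs_le.1 (hγ0' none)).1
    rw [fnl_none (γ := (μ', a'))] at h3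
    dsimp only at h3
    rw [hsumμ] at h3
    have hordη : P.ord (η D) + m * Z2 =
        m * P.ord (om e D x) + P.ord z - m * (Z3 + V) := by
      have h1 := congrArg P.ord hpl
      rw [P.ord_mul hηD (pow_ne_zero _ hx0), P.ord_pow,
        ord_prod' P Finset.univ _ fun i _ => pow_ne_zero _ (H.hx i 0),
        P.ord_mul (pow_ne_zero _ hbw) hη0, P.ord_pow] at h1
      have h2 : ∑ i, P.ord (x i 0 ^ (n i + 1)) = Z2 := by
        rw [hZ2]
        refine Finset.sum_congr rfl fun i _ => ?_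
        rw [P.ord_pow, ho']
        push_cast
        ring
      rw [h2] at h1
      have h3 : P.ord z = P.ord (η D0) + m * (Z3 + V) := by
        rw [hz, P.ord_mul hη0 (C.Lam_ne m), C.ord_Lam]
        congr 2
        rw [hZ3, hV, ← Finset.sum_add_distrib]
        refine Finset.sum_congr rfl fun k _ => ?_
        rw [hdat.ordF H k, ho']
      rw [h1, h3]
      ring
    have hmono := ord_mono_low H hdat a
    have hβ := hBle i
    simp only [ho'] at hmono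
    -- the degrees
    have hdeg : ∑ t, (α t - o t) * ((((dF t : ℤ) - n t - 1) * m)) - A * c1 * (j + 1) ≤
        ∑ t, (α t - o t) * (Φ.wbd a t : ℤ) := by
      rw [hA, Finset.sum_mul, Finset.sum_mul, ← Finset.sum_sub_distrib]
      refine Finset.sum_le_sum fun t _ => ?_
      have h1 := hwbd t
      rw [H.hΦD, H.hΦn] at h1
      have h2 : α t - o t ≤ 0 := by
        rw [← ho']
        linarith [hdat.h1 t 0]
      rw [abs_of_nonpos h2]
      have h3 := mul_le_mul_of_nonpos_left h1 h2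
      linarith
    have hs2 : ∑ t, (α t - o t) * (((dF t : ℤ) - n t - 1) * m) = m * Z3 - m * Z1 + m * Z2 := by
      rw [hZ1, hZ2, hZ3, Finset.mul_sum, Finset.mul_sum, Finset.mul_sum, ← Finset.sum_sub_distrib,
        ← Finset.sum_add_distrib]
      exact Finset.sum_congr rfl fun t _ => by ring
    rw [hs2] at hdeg
    obtain ⟨ℓa, hℓa⟩ : ∃ ℓa, ℓa = ∑ k, (v k : ℤ) * a' k := ⟨_, rfl⟩
    have hℓa' : ∑ t, (v t : ℤ) * (a (Φ.c t) : ℤ) = ℓa := by rw [hℓa, ha']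
    rw [hℓa'] at hmono
    rw [← hℓa] at h3
    obtain ⟨bD, hbD⟩ : ∃ bD, bD = P.ord (om e D x) := ⟨_, rfl⟩
    obtain ⟨oz, hoz⟩ : ∃ oz, oz = P.ord z := ⟨_, rfl⟩
    obtain ⟨oQ, hoQ⟩ : ∃ oQ, oQ = P.ord Q := ⟨_, rfl⟩
    obtain ⟨oη, hoη⟩ : ∃ oη, oη = P.ord (η D) := ⟨_, rfl⟩
    obtain ⟨w0, hw0⟩ : ∃ w0, w0 = fnl p r B0 (fun k => (v k : ℤ)) none γ0 := ⟨_, rfl⟩
    rw [← hw0] at h3 ⊢
    rw [hB0, ← hbD] at h3
    rw [← hbD, ← hoz, ← hoη] at hordη
    rw [← hoz, ← hoQ] at hia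
    rw [← hoQ] at hC1
    rw [← hoη]
    have h4 : m * Z3 - m * Z1 + m * Z2 + ℓa - A * c1 * (j + 1) - B - (j + 1) * |oQ| ≤ oz := by
      have h2 : ((j + 1 : ℕ) : ℤ) * oQ ≤ (j + 1) * |oQ| := by
        push_cast
        exact mul_le_mul_of_nonneg_left (le_abs_self _) (by positivity)
      linarith
    have h8 : B ≤ B * (j + 1) := by
      have : (0 : ℤ) ≤ B * j := by positivity
      linarith
    rw [hC1]
    push_cast at h3 ⊢
    linarith

/-- **The asymptotic orders.** -/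
theorem geoB (H : Mon e C dF x F) (hdF : ∀ i, 1 ≤ dF i) (hΦ : Smo Φ)
    (hcf : ∀ i, CoefH C (c i) (δ i))
    (hmul : ∀ i v (r : ℕ), 1 ≤ r → Adm C.M C.a v → 1 - c i (r • v) ≤ r * (1 - c i v))
    {T : Finset (Fin r → ℕ)} (hTadm : ∀ s ∈ T, Adm C.M C.a s)
    (hTgen : ∀ v, Adm C.M C.a v → ∃ w : (Fin r → ℕ) → ℚ, (∀ s, 0 ≤ w s) ∧
      (∀ k, ∑ s ∈ T, w s * s k ≤ v k) ∧ ∀ i, 1 - c i v ≤ ∑ s ∈ T, w s * (1 - c i s)) :
    ∃ (N0 : ℕ) (g : Fin N0 → Fin p →₀ ℕ) (ω : Fin N0 → (Fin (N' + 1) → Derivation ℂ K K) → K),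
      (∀ b, g b ≠ 0 ∧ MSec (N' + 1) δ (g b) (ω b)) ∧
      (∀ (P : Place ℂ K) (S : Finset K) (D : Fin (N' + 1) → Derivation ℂ K K), ∃ C1 : ℕ,
        ∀ (μ : Fin p →₀ ℕ) (j : ℕ) (η : (Fin (N' + 1) → Derivation ℂ K K) → K), μ ≠ 0 →
          BSec (N' + 1) (av μ δ) S (∑ i, μ i) j η → η D = 0 ∨ ((∀ b, ω b D ≠ 0) ∧
            ∃ e : Fin N0 → ℕ,
              (∀ i, |∑ b, (e b : ℤ) * g b i - μ i| ≤ C1 * (j + 1)) ∧
              ∑ b, (e b : ℤ) * P.ord (ω b D) ≤ P.ord (η D) + C1 * (j + 1))) ∧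
      ∃ D0 : Fin (N' + 1) → Derivation ℂ K K, (∀ b, ω b D0 ≠ 0) ∧
        ∀ (m : ℕ) (η : (Fin (N' + 1) → Derivation ℂ K K) → K), IsPluri m η →
          ∀ D, η D * (∏ i, x i 0 ^ (n i + 1)) ^ m = om e D x ^ m * η D0 := by
  obtain ⟨N0, g, ω, h1, -, h2, h3⟩ := geoBx H hdF hΦ hcf hmul hTadm hTgen
  exact ⟨N0, g, ω, h1, h2, h3⟩

end Pool.Agent.Q57.GG
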