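import Pool.Agent.Q57.GG.Psef

/-!
Nef real combinations of log canonical divisors are semiample, if finitely many sections compute the
asymptotic orders.
-/

set_option autoImplicit false
set_option linter.overlappingInstances false
set_option linter.unusedSectionVars false
set_option maxHeartbeats 1000000

open FF MvPolynomial Pool.Agent.W602.GT Pool.Agent.Q57.TP Pool.Agent.Q57.GM Pool.Agent.Q57.FG

namespace Pool.Agent.Q57.GG

variable {p N : ℕ} {K : Type} [Field K] [Algebra ℂ K] {δ : Fin p → Place ℂ K → ℚ}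

/-- the real combination `∑ i, lam i (K + Δ i)` is nef -/
def NefR (N : ℕ) (δ : Fin p → Place ℂ K → ℚ) (lam : Fin p → ℝ) : Prop :=
  ∃ S : Finset K, (∃ s ∈ S, s ≠ 0) ∧ ∀ M : ℕ, 1 ≤ M → ∃ j : ℕ, 1 ≤ j ∧
    ∀ P : Place ℂ K, Divisorial N P → ∃ μ : Fin p →₀ ℕ, (∀ i, |(μ i : ℝ) - j * M * lam i| ≤ j) ∧
      ∃ η : (Fin N → Derivation ℂ K K) → K, ASec N δ S μ j η ∧
        ∃ D, (∀ c, DerReg P (D c)) ∧ η D ≠ 0 ∧ ∀ s ∈ S, s ≠ 0 →
          (P.ord (η D) : ℚ) ≤ j * P.ord s - ∑ i, (μ i : ℚ) * δ i P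

/-- **Nef combinations are semiample.** -/
theorem semi_of_nefR {w : (Fin N → Derivation ℂ K K) → K} {u : K} (hu : u ≠ 0)
    {D0 : Fin N → Derivation ℂ K K}
    (hpl : ∀ (m : ℕ) (η : (Fin N → Derivation ℂ K K) → K), IsPluri m η →
      ∀ D, η D * u ^ m = w D ^ m * η D0)
    {N0 : ℕ} {g : Fin N0 → Fin p →₀ ℕ} {ω : Fin N0 → (Fin N → Derivation ℂ K K) → K}
    (hg : ∀ b, g b ≠ 0 ∧ MSec N δ (g b) (ω b))
    (hord : ∀ (P : Place ℂ K) (S : Finset K) (D : Fin N → Derivation ℂ K K), ∃ C1 : ℕ,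
        ∀ (μ : Fin p →₀ ℕ) (j : ℕ) (η : (Fin N → Derivation ℂ K K) → K), μ ≠ 0 →
          ASec N δ S μ j η → η D = 0 ∨ ((∀ b, ω b D ≠ 0) ∧
            ∃ e : Fin N0 → ℕ,
              (∀ i, |∑ b, (e b : ℤ) * g b i - μ i| ≤ C1 * (j + 1)) ∧
              ∑ b, (e b : ℤ) * P.ord (ω b D) ≤ P.ord (η D) + C1 * (j + 1)))
    (lam : Fin p → ℝ) (hlam : ∀ i, 0 ≤ lam i) (hn : NefR N δ lam) (P : Place ℂ K)
    (hP : Divisorial N P) :
    ∃ t : Fin N0 → ℝ, (∀ b, 0 ≤ t b) ∧ (∀ i, lam i = ∑ b, t b * g b i) ∧ ∀ b, t b ≠ 0 →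
      ∃ D, (∀ c, DerReg P (D c)) ∧ ω b D ≠ 0 ∧
        (P.ord (ω b D) : ℚ) ≤ - ∑ i, (g b i : ℚ) * δ i P := by
  classical
  by_cases hlam0 : ∀ i, lam i = 0
  · exact ⟨0, fun b => le_rfl, fun i => by rw [hlam0]; simp, fun b hb => absurd rfl hb⟩
  push Not at hlam0
  obtain ⟨i0, hi0⟩ := hlam0
  have hi0' : 0 < lam i0 := lt_of_le_of_ne (hlam i0) (Ne.symm hi0)
  obtain ⟨S, ⟨s0, hs0, hs00⟩, hnef⟩ := hn
  obtain ⟨M0, hM0⟩ := exists_nat_gt (1 / lam i0)
  rw [div_lt_iff₀ hi0'] at hM0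
  have hM0pos : 1 ≤ M0 := by
    rcases Nat.eq_zero_or_pos M0 with h | h
    · rw [h, Nat.cast_zero, zero_mul] at hM0
      linarith
    · exact h
  have hμne : ∀ (M j : ℕ) (μ : Fin p →₀ ℕ), M0 ≤ M → 1 ≤ j →
      (∀ i, |(μ i : ℝ) - j * M * lam i| ≤ j) → μ ≠ 0 := by
    intro M j μ hM hj h h0
    have h1 := h i0
    rw [h0, Finsupp.zero_apply, Nat.cast_zero, zero_sub, abs_neg,
      abs_of_nonneg (by have := hlam i0; positivity)] at h1
    have h2 : (0 : ℝ) < j := by exact_mod_cast hj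
    have h3 : (M0 : ℝ) ≤ M := by exact_mod_cast hM
    have h4 : (1 : ℝ) < M * lam i0 := lt_of_lt_of_le hM0 (mul_le_mul_of_nonneg_right h3 hi0'.le)
    nlinarith
  have hsum : ∀ μ : Fin p →₀ ℕ, μ ≠ 0 → 1 ≤ ∑ i, μ i := by
    intro μ hμ
    by_contra hcon
    push Not at hcon
    apply hμ
    ext i
    exact Finset.sum_eq_zero_iff.1 (by omega : ∑ i, μ i = 0) i (Finset.mem_univ i)
  -- the order in terms of `w`
  have hordw : ∀ (m : ℕ) (η : (Fin N → Derivation ℂ K K) → K), IsPluri m η → ∀ D, w D ≠ 0 →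
      η D0 ≠ 0 → η D ≠ 0 ∧ P.ord (η D) = m * (P.ord (w D) - P.ord u) + P.ord (η D0) := by
    intro m η hη D hD h0
    have h1 := hpl m η hη D
    have h2 : η D ≠ 0 := by
      intro h3
      rw [h3, zero_mul] at h1
      exact mul_ne_zero (pow_ne_zero _ hD) h0 h1.symm
    refine ⟨h2, ?_⟩
    have h3 := congrArg P.ord h1
    rw [P.ord_mul h2 (pow_ne_zero _ hu), P.ord_mul (pow_ne_zero _ hD) h0, P.ord_pow,
      P.ord_pow] at h3
    linarith
  have hw : ∀ (m : ℕ) (η : (Fin N → Derivation ℂ K K) → K), IsPluri m η → 1 ≤ m → ∀ D, η D ≠ 0 →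
      w D ≠ 0 ∧ η D0 ≠ 0 := by
    intro m η hη hm D hD
    have h1 := hpl m η hη D
    have h2 : η D * u ^ m ≠ 0 := mul_ne_zero hD (pow_ne_zero _ hu)
    rw [h1] at h2
    refine ⟨fun h3 => h2 ?_, fun h3 => h2 ?_⟩
    · rw [h3, zero_pow (by omega), zero_mul]
    · rw [h3, mul_zero]
  -- the minimal order
  obtain ⟨j0, hj0, hjP0⟩ := hnef M0 hM0pos
  obtain ⟨μ0, hμ0, η0, hη0, D1, hD1, hη0D1, -⟩ := hjP0 P hP
  have hμ00 := hμne M0 j0 μ0 le_rfl hj0 hμ0
  obtain ⟨hwD1, hη0D0⟩ := hw _ η0 hη0.1 (hsum μ0 hμ00) D1 hη0D1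
  obtain ⟨B1, hB1⟩ : ∃ B1 : ℤ, ∀ D : Fin N → Derivation ℂ K K, (∀ c, DerReg P (D c)) →
      η0 D ≠ 0 → B1 ≤ P.ord (η0 D) := by
    obtain ⟨Z, hZ⟩ : ∃ Z : ℚ, Z = - ∑ s ∈ S, |(j0 : ℚ) * P.ord s| - ∑ i, (μ0 i : ℚ) * δ i P :=
      ⟨_, rfl⟩
    refine ⟨⌊Z⌋, fun D hD hne => ?_⟩
    obtain ⟨s, hs, -, hle⟩ := (hη0.2 P hP D hD).resolve_left hne
    have h1 : |(j0 : ℚ) * P.ord s| ≤ ∑ s ∈ S, |(j0 : ℚ) * P.ord s| :=
      Finset.single_le_sum (f := fun s => |(j0 : ℚ) * P.ord s|) (fun _ _ => abs_nonneg _) hs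
    have h2 := neg_abs_le ((j0 : ℚ) * P.ord s)
    have h3 := Int.floor_le Z
    have h4 : ((⌊Z⌋ : ℤ) : ℚ) ≤ P.ord (η0 D) := by
      rw [hZ] at h3 ⊢
      linarith
    exact_mod_cast h4
  obtain ⟨o, ⟨D, hD, hwD, ho⟩, hmin⟩ : ∃ o : ℤ, (∃ D : Fin N → Derivation ℂ K K,
      (∀ c, DerReg P (D c)) ∧ w D ≠ 0 ∧ P.ord (w D) = o) ∧
      ∀ o', (∃ D : Fin N → Derivation ℂ K K, (∀ c, DerReg P (D c)) ∧ w D ≠ 0 ∧
        P.ord (w D) = o') → o ≤ o' := by
    refine Int.exists_least_of_bdd ⟨- |B1 + ((∑ i, μ0 i : ℕ) : ℤ) * P.ord u - P.ord (η0 D0)|,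
      ?_⟩ ⟨_, D1, hD1, hwD1, rfl⟩
    rintro z ⟨D, hD, hne, rfl⟩
    obtain ⟨h1, h2⟩ := hordw _ η0 hη0.1 D hne hη0D0
    have h3 := hB1 D hD h1
    rw [h2] at h3
    have h4 : (1 : ℤ) ≤ ((∑ i, μ0 i : ℕ) : ℤ) := by exact_mod_cast hsum μ0 hμ00
    obtain ⟨m0, hm0⟩ : ∃ m0 : ℤ, m0 = ((∑ i, μ0 i : ℕ) : ℤ) := ⟨_, rfl⟩
    rw [← hm0] at h3 h4 ⊢
    by_cases h5 : 0 ≤ P.ord (w D)
    · exact le_trans (neg_nonpos.2 (abs_nonneg _)) h5
    · push Not at h5
      have h6 : B1 + m0 * P.ord u - P.ord (η0 D0) ≤ m0 * P.ord (w D) := by linarith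
      have h7 : m0 * P.ord (w D) ≤ P.ord (w D) := by nlinarith
      have h8 := neg_abs_le (B1 + m0 * P.ord u - P.ord (η0 D0))
      linarith
  -- the orders of the sections
  have hωD : ∀ b, ω b D ≠ 0 := by
    obtain ⟨C1, hC1⟩ := hord P S D
    exact ((hC1 μ0 j0 η0 hμ00 hη0).resolve_left (hordw _ η0 hη0.1 D hwD hη0D0).1).1
  obtain ⟨a, ha⟩ : ∃ a : Fin N0 → ℝ, a = fun b => (P.ord (ω b D) : ℝ) +
    ∑ i, (g b i : ℝ) * (δ i P : ℝ) := ⟨_, rfl⟩
  have ha0 : ∀ b, 0 ≤ a b := by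
    intro b
    have h1 := ((hg b).2.2 P hP D hD).resolve_left (hωD b)
    have h2 : ((- ∑ i, (g b i : ℚ) * δ i P : ℚ) : ℝ) ≤ ((P.ord (ω b D) : ℚ) : ℝ) := by
      exact_mod_cast h1
    push_cast at h2
    rw [ha]
    dsimp only
    linarith
  obtain ⟨C1, hC1⟩ := hord P S D
  obtain ⟨K0, hK0⟩ : ∃ K0 : ℝ, K0 = |(P.ord s0 : ℝ)| + 2 * C1 * (1 + ∑ i, |(δ i P : ℝ)|) :=
    ⟨_, rfl⟩
  have hK00 : 0 ≤ K0 := by
    rw [hK0]
    positivity
  obtain ⟨t, ht0, ht⟩ := cone_closed (p := p + 1)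
    (fun b => Fin.cases (a b) fun i => ((g b i : ℕ) : ℝ)) (fun b i => by
      refine Fin.cases ?_ (fun i => ?_) i
      · exact ha0 b
      · simp) (fun b => by
      rw [Fin.sum_univ_succ]
      simp only [Fin.cases_zero, Fin.cases_succ]
      have h1 : ∃ i, g b i ≠ 0 := by
        by_contra hcon
        push Not at hcon
        exact (hg b).1 (Finsupp.ext hcon)
      obtain ⟨i, hi⟩ := h1
      have h2 : (1 : ℝ) ≤ g b i := by
        have : 1 ≤ g b i := Nat.one_le_iff_ne_zero.2 hi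
        exact_mod_cast this
      have h3 := h2.trans (Finset.single_le_sum (f := fun i => ((g b i : ℕ) : ℝ))
        (fun i _ => by positivity) (Finset.mem_univ i))
      have h4 := ha0 b
      linarith) (Fin.cases 0 lam) (fun ε hε => by
      obtain ⟨M1, hM1⟩ := exists_nat_gt ((2 * C1 + 1 + K0) / ε)
      rw [div_lt_iff₀ hε] at hM1
      obtain ⟨M, hM⟩ : ∃ M, M = M0 + M1 := ⟨_, rfl⟩
      have hMM : (M1 : ℝ) ≤ M := by
        rw [hM]
        push_cast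
        linarith [(Nat.cast_nonneg M0 : (0 : ℝ) ≤ M0)]
      have hMε : 2 * C1 + 1 + K0 < (M : ℝ) * ε :=
        lt_of_lt_of_le hM1 (mul_le_mul_of_nonneg_right hMM hε.le)
      have hMpos : (0 : ℝ) < M := by
        have : 0 < M := by omega
        exact_mod_cast this
      obtain ⟨j, hj, hjP⟩ := hnef M (by omega)
      obtain ⟨μ, hμ, η, hη, D', hD', hηD', hle⟩ := hjP P hP
      have hμ' := hμne M j μ (by omega) hj hμ
      obtain ⟨hwD', hηD0⟩ := hw _ η hη.1 (hsum μ hμ') D' hηD'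
      obtain ⟨hηD, hoD⟩ := hordw _ η hη.1 D hwD hηD0
      obtain ⟨-, hoD'⟩ := hordw _ η hη.1 D' hwD' hηD0
      have hoo : P.ord (η D) ≤ P.ord (η D') := by
        rw [hoD, hoD']
        have h1 := hmin _ ⟨D', hD', hwD', rfl⟩
        rw [← ho] at h1
        have h2 : (0 : ℤ) ≤ ((∑ i, μ i : ℕ) : ℤ) := by positivity
        nlinarith
      obtain ⟨e, he1, he2⟩ := ((hC1 μ j η hμ' hη).resolve_left hηD).2
      have hj0' : (1 : ℝ) ≤ j := by exact_mod_cast hj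
      have hjM : (0 : ℝ) < j * M := by positivity
      have hC0 : (0 : ℝ) ≤ C1 := by positivity
      have h1 : ∀ i, |∑ b, (e b : ℝ) * g b i - μ i| ≤ C1 * (j + 1) := by
        intro i
        have h2 := he1 i
        have h3 : ((|∑ b, (e b : ℤ) * g b i - μ i| : ℤ) : ℝ) ≤ ((C1 * (j + 1) : ℤ) : ℝ) := by
          exact_mod_cast h2
        push_cast at h3
        exact h3
      refine ⟨fun b => (e b : ℝ) / (j * M), fun b => by positivity, fun i => ?_⟩
      refine Fin.cases ?_ (fun i => ?_) i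
      · simp only [Fin.cases_zero, sub_zero]
        have h2 : ∑ b, (e b : ℝ) / (j * M) * a b = (∑ b, (e b : ℝ) * a b) / (j * M) := by
          rw [Finset.sum_div]
          exact Finset.sum_congr rfl fun b _ => by ring
        have h3 : 0 ≤ ∑ b, (e b : ℝ) * a b :=
          Finset.sum_nonneg fun b _ => mul_nonneg (by positivity) (ha0 b)
        rw [h2, abs_of_nonneg (div_nonneg h3 hjM.le), div_le_iff₀ hjM]
        have h4 : ∑ b, (e b : ℝ) * a b = ∑ b, (e b : ℝ) * P.ord (ω b D) +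
            ∑ i, (∑ b, (e b : ℝ) * g b i) * (δ i P : ℝ) := by
          rw [ha]
          simp only [mul_add, Finset.sum_add_distrib, Finset.mul_sum, Finset.sum_mul]
          congr 1
          rw [Finset.sum_comm]
          exact Finset.sum_congr rfl fun i _ => Finset.sum_congr rfl fun b _ => by ring
        have h5 : ∑ b, (e b : ℝ) * P.ord (ω b D) ≤ P.ord (η D) + C1 * (j + 1) := by
          exact_mod_cast he2
        have h6 : (P.ord (η D) : ℝ) ≤ j * P.ord s0 - ∑ i, (μ i : ℝ) * (δ i P : ℝ) := by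
          have h7 := hle s0 hs0 hs00
          have h8 : ((P.ord (η D) : ℚ)) ≤ (P.ord (η D') : ℚ) := by exact_mod_cast hoo
          have h9 : (((P.ord (η D) : ℚ)) : ℝ) ≤
              (((j : ℚ) * P.ord s0 - ∑ i, (μ i : ℚ) * δ i P : ℚ) : ℝ) := by
            exact_mod_cast h8.trans h7
          push_cast at h9
          exact h9
        have h7 : ∑ i, (∑ b, (e b : ℝ) * g b i) * (δ i P : ℝ) ≤
            ∑ i, (μ i : ℝ) * (δ i P : ℝ) + C1 * (j + 1) * ∑ i, |(δ i P : ℝ)| := by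
          rw [Finset.mul_sum, ← Finset.sum_add_distrib]
          refine Finset.sum_le_sum fun i _ => ?_
          have h8 : (∑ b, (e b : ℝ) * g b i) * (δ i P : ℝ) = μ i * (δ i P : ℝ) +
              (∑ b, (e b : ℝ) * g b i - μ i) * (δ i P : ℝ) := by ring
          rw [h8]
          have h9 : (∑ b, (e b : ℝ) * g b i - μ i) * (δ i P : ℝ) ≤
              C1 * (j + 1) * |(δ i P : ℝ)| := by
            refine (le_abs_self _).trans ?_
            rw [abs_mul]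
            exact mul_le_mul_of_nonneg_right (h1 i) (abs_nonneg _)
          linarith
        have h8 : (j : ℝ) * P.ord s0 ≤ j * |(P.ord s0 : ℝ)| :=
          mul_le_mul_of_nonneg_left (le_abs_self _) (by linarith)
        have h9 : (C1 : ℝ) * (j + 1) * (1 + ∑ i, |(δ i P : ℝ)|) ≤
            j * (2 * C1 * (1 + ∑ i, |(δ i P : ℝ)|)) := by
          have h10 : (0 : ℝ) ≤ C1 * (1 + ∑ i, |(δ i P : ℝ)|) := by positivity
          nlinarith
        have h10 : ∑ b, (e b : ℝ) * a b ≤ j * K0 := by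
          rw [h4, hK0]
          linarith
        have h11 : (j : ℝ) * K0 ≤ j * (M * ε) :=
          mul_le_mul_of_nonneg_left (by linarith) (by linarith)
        linarith
      · simp only [Fin.cases_succ]
        have h2 : ∑ b, (e b : ℝ) / (j * M) * g b i - lam i =
            ((∑ b, (e b : ℝ) * g b i - μ i) + (μ i - j * M * lam i)) / (j * M) := by
          rw [eq_div_iff hjM.ne', sub_mul, Finset.sum_mul]
          have h3 : ∀ b, (e b : ℝ) / (j * M) * g b i * (j * M) = (e b : ℝ) * g b i := by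
            intro b
            field_simp
          rw [Finset.sum_congr rfl fun b _ => h3 b]
          ring
        rw [h2, abs_div, abs_of_pos hjM, div_le_iff₀ hjM]
        have h3 := (abs_add_le (∑ b, (e b : ℝ) * g b i - μ i) (μ i - j * M * lam i)).trans
          (add_le_add (h1 i) (hμ i))
        refine h3.trans ?_
        have h4 : (C1 : ℝ) * (j + 1) + j ≤ (2 * C1 + 1) * j := by nlinarith
        have h5 : (j : ℝ) * (2 * C1 + 1) ≤ j * (M * ε) :=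
          mul_le_mul_of_nonneg_left (by linarith) (by linarith)
        nlinarith)
  refine ⟨t, ht0, fun i => ?_, fun b hb => ⟨D, hD, hωD b, ?_⟩⟩
  · have h1 := ht i.succ
    simpa only [Fin.cases_succ] using h1
  · have h1 := ht 0
    simp only [Fin.cases_zero] at h1
    have h2 := (Finset.sum_eq_zero_iff_of_nonneg fun b _ => mul_nonneg (ht0 b) (ha0 b)).1 h1.symm b
      (Finset.mem_univ b)
    have h3 : a b = 0 := (mul_eq_zero.1 h2).resolve_left hb
    rw [ha] at h3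
    dsimp only at h3
    have h4 : ((P.ord (ω b D) : ℚ) : ℝ) ≤ ((- ∑ i, (g b i : ℚ) * δ i P : ℚ) : ℝ) := by
      push_cast
      linarith
    exact_mod_cast h4

end Pool.Agent.Q57.GG
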