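import Pool.Agent.Q57.GM.Gor

/-!
Approximation of the lattice points which satisfy linear inequalities up to an error by lattice points
which satisfy them exactly, and the closedness of finitely generated cones.
-/

set_option autoImplicit false
set_option linter.unusedSectionVars false

open Pool.Agent.Q57.GM

namespace Pool.Agent.Q57.GG

section

variable {V ι J : Type} [AddCommGroup V] [Fintype ι] [DecidableEq ι] [Fintype J]

/-- **The approximation.** -/
theorem approx (L : V →+ (ι → ℤ)) (hL : Function.Injective L) (c : ι → ℤ) (ℓ : J → (V →+ ℤ)) :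
    ∃ C : ℕ, ∀ (γ : V) (j : ℕ), (∀ s, - (c s * j) ≤ L γ s) →
      ∃ γ0, (∀ s, 0 ≤ L γ0 s) ∧ ∀ i, |ℓ i γ - ℓ i γ0| ≤ C * j := by
  classical
  let L' : V × ℤ →+ (Option ι → ℤ) :=
    { toFun := fun p s => s.elim p.2 fun s => L p.1 s + c s * p.2
      map_zero' := by
        funext s
        rcases s with _ | s
        · rfl
        · simp
      map_add' := by
        intro p q
        funext s
        rcases s with _ | s
        · rfl
        · simp only [Option.elim_some, Prod.fst_add, Prod.snd_add, map_add, Pi.add_apply]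
          ring }
  have hL'n : ∀ p, L' p none = p.2 := fun p => rfl
  have hL's : ∀ p s, L' p (some s) = L p.1 s + c s * p.2 := fun p s => rfl
  have hL' : Function.Injective L' := by
    rw [injective_iff_map_eq_zero]
    intro p hp
    have h1 : p.2 = 0 := by
      have := congrFun hp none
      rwa [hL'n] at this
    have h2 : p.1 = 0 := by
      apply hL
      rw [map_zero]
      funext s
      have := congrFun hp (some s)
      rw [hL's, h1, mul_zero, add_zero] at this
      exact this
    exact Prod.ext h2 h1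
  obtain ⟨G, hG1, hG2⟩ := gordan L' hL'
  obtain ⟨C, hC⟩ : ∃ C : ℤ, C = ∑ g ∈ G, ∑ i, |ℓ i g.1| := ⟨_, rfl⟩
  have hC0 : 0 ≤ C := by
    rw [hC]
    exact Finset.sum_nonneg fun _ _ => Finset.sum_nonneg fun _ _ => abs_nonneg _
  have hCle : ∀ g ∈ G, ∀ i, |ℓ i g.1| ≤ C := by
    intro g hg i
    rw [hC]
    have h1 : |ℓ i g.1| ≤ ∑ i, |ℓ i g.1| :=
      Finset.single_le_sum (f := fun i => |ℓ i g.1|) (fun _ _ => abs_nonneg _) (Finset.mem_univ i)
    exact h1.trans (Finset.single_le_sum (f := fun g : V × ℤ => ∑ i, |ℓ i g.1|)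
      (fun _ _ => Finset.sum_nonneg fun _ _ => abs_nonneg _) hg)
  have key : ∀ p ∈ AddSubmonoid.closure (G : Set (V × ℤ)), 0 ≤ p.2 ∧
      ∃ γ0, (∀ s, 0 ≤ L γ0 s) ∧ ∀ i, |ℓ i p.1 - ℓ i γ0| ≤ C * p.2 := by
    intro p hp
    induction hp using AddSubmonoid.closure_induction with
    | mem g hg =>
      have h3 := (hG1 g hg).2
      have h4 : 0 ≤ g.2 := h3 none
      refine ⟨h4, ?_⟩
      rcases h4.lt_or_eq with h5 | h5
      · refine ⟨0, fun s => by rw [map_zero]; exact le_rfl, fun i => ?_⟩
        rw [map_zero, sub_zero]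
        have h6 := hCle g hg i
        nlinarith
      · refine ⟨g.1, fun s => ?_, fun i => ?_⟩
        · have h6 := h3 (some s)
          rw [hL's, ← h5, mul_zero, add_zero] at h6
          exact h6
        · rw [sub_self, abs_zero, ← h5, mul_zero]
    | zero => exact ⟨le_rfl, 0, fun s => by rw [map_zero]; exact le_rfl, fun i => by simp⟩
    | add p q _ _ hp hq =>
      obtain ⟨hp1, γp, hγp, hp2⟩ := hp
      obtain ⟨hq1, γq, hγq, hq2⟩ := hq
      refine ⟨add_nonneg hp1 hq1, γp + γq, fun s => ?_, fun i => ?_⟩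
      · rw [map_add]
        exact add_nonneg (hγp s) (hγq s)
      · rw [Prod.fst_add, Prod.snd_add, map_add, map_add, mul_add]
        have h1 : ℓ i p.1 + ℓ i q.1 - (ℓ i γp + ℓ i γq) = (ℓ i p.1 - ℓ i γp) +
          (ℓ i q.1 - ℓ i γq) := by ring
        rw [h1]
        exact (abs_add_le _ _).trans (add_le_add (hp2 i) (hq2 i))
  obtain ⟨C', rfl⟩ := Int.eq_ofNat_of_zero_le hC0
  refine ⟨C', fun γ j hγ => ?_⟩
  have h1 : (γ, (j : ℤ)) ∈ AddSubmonoid.closure (G : Set (V × ℤ)) := by
    refine hG2 _ fun s => ?_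
    rcases s with _ | s
    · exact Int.natCast_nonneg j
    · rw [hL's]
      have := hγ s
      dsimp only
      linarith
  exact (key _ h1).2

/-- the elements generated by a finite set -/
theorem closure_comb {V : Type} [AddCommMonoid V] (G : Finset V) {γ : V}
    (h : γ ∈ AddSubmonoid.closure (G : Set V)) : ∃ e : V → ℕ, γ = ∑ g ∈ G, e g • g := by
  classical
  induction h using AddSubmonoid.closure_induction with
  | mem g hg =>
    refine ⟨fun h => if h = g then 1 else 0, ?_⟩
    rw [Finset.sum_eq_single g]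
    · simp
    · intro b _ hb
      dsimp only
      rw [if_neg hb, zero_smul]
    · intro h
      exact absurd hg h
  | zero => exact ⟨0, by simp⟩
  | add x y _ _ hx hy =>
    obtain ⟨e, rfl⟩ := hx
    obtain ⟨f, rfl⟩ := hy
    refine ⟨fun g => e g + f g, ?_⟩
    rw [← Finset.sum_add_distrib]
    exact Finset.sum_congr rfl fun g _ => (add_smul _ _ _).symm

end

/-- **Finitely generated cones are closed.** -/
theorem cone_closed {N p : ℕ} (g : Fin N → Fin p → ℝ) (h0 : ∀ b i, 0 ≤ g b i)
    (h1 : ∀ b, 1 ≤ ∑ i, g b i) (lam : Fin p → ℝ)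
    (h : ∀ ε : ℝ, 0 < ε → ∃ t : Fin N → ℝ, (∀ b, 0 ≤ t b) ∧
      ∀ i, |∑ b, t b * g b i - lam i| ≤ ε) :
    ∃ t : Fin N → ℝ, (∀ b, 0 ≤ t b) ∧ ∀ i, lam i = ∑ b, t b * g b i := by
  classical
  obtain ⟨B, hB⟩ : ∃ B : ℝ, B = ∑ i, (|lam i| + 1) := ⟨_, rfl⟩
  have hB0 : 0 ≤ B := by
    rw [hB]
    exact Finset.sum_nonneg fun _ _ => by positivity
  let f : (Fin N → ℝ) → ℝ := fun t => ∑ i, |∑ b, t b * g b i - lam i|
  have hf : Continuous f := by
    refine continuous_finsetSum _ fun i _ => ?_
    refine Continuous.abs (Continuous.sub (continuous_finsetSum _ fun b _ => ?_)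
      continuous_const)
    exact (continuous_apply b).mul continuous_const
  have hcomp : IsCompact (Set.Icc (0 : Fin N → ℝ) fun _ => B) := isCompact_Icc
  obtain ⟨t, ht, hmin⟩ := hcomp.exists_isMinOn ⟨0, ⟨le_rfl, fun _ => hB0⟩⟩ hf.continuousOn
  refine ⟨t, fun b => ht.1 b, fun i => ?_⟩
  -- the minimum is zero
  have hle : ∀ ε : ℝ, 0 < ε → ε ≤ 1 → f t ≤ p * ε := by
    intro ε hε hε1
    obtain ⟨t', ht', hlt⟩ := h ε hε
    have hbd : ∀ b, t' b ≤ B := by
      intro b
      have h2 : t' b ≤ ∑ i, t' b * g b i := by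
        rw [← Finset.mul_sum]
        have := h1 b
        have := ht' b
        nlinarith
      have h3 : ∑ i, t' b * g b i ≤ ∑ i, ∑ b, t' b * g b i := by
        refine Finset.sum_le_sum fun i _ => ?_
        exact Finset.single_le_sum (f := fun b => t' b * g b i)
          (fun b _ => mul_nonneg (ht' b) (h0 b i)) (Finset.mem_univ b)
      have h4 : ∑ i, ∑ b, t' b * g b i ≤ B := by
        rw [hB]
        refine Finset.sum_le_sum fun i _ => ?_
        have h5 := (abs_le.1 (hlt i)).2
        have h6 := le_abs_self (lam i)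
        linarith
      linarith
    have h2 : f t ≤ f t' := hmin ⟨fun b => ht' b, hbd⟩
    refine h2.trans ?_
    calc f t' ≤ ∑ _i : Fin p, ε := Finset.sum_le_sum fun i _ => hlt i
      _ = p * ε := by simp
  have hf0 : f t ≤ 0 := by
    by_contra hcon
    push Not at hcon
    have hp : (0 : ℝ) < p + 1 := by positivity
    obtain ⟨ε, hε⟩ : ∃ ε : ℝ, ε = min 1 (f t / (2 * (p + 1))) := ⟨_, rfl⟩
    have h2 : 0 < ε := by
      rw [hε]
      exact lt_min one_pos (by positivity)
    have h3 := hle ε h2 (by rw [hε]; exact min_le_left _ _)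
    have h4 : ε ≤ f t / (2 * (p + 1)) := by
      rw [hε]
      exact min_le_right _ _
    rw [le_div_iff₀ (by positivity)] at h4
    nlinarith
  have h2 : |∑ b, t b * g b i - lam i| ≤ f t :=
    Finset.single_le_sum (f := fun i => |∑ b, t b * g b i - lam i|) (fun _ _ => abs_nonneg _)
      (Finset.mem_univ i)
  have h3 := abs_nonpos_iff.1 (h2.trans hf0)
  linarith

end Pool.Agent.Q57.GG
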