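import Pool.Agent.Q57.GG.NefR

/-!
The cone of the nef real combinations of log canonical divisors.
-/

set_option autoImplicit false
set_option linter.overlappingInstances false
set_option linter.unusedSectionVars false
set_option maxHeartbeats 1000000

open FF MvPolynomial Pool.Agent.W602.GT Pool.Agent.Q57.TP Pool.Agent.Q57.GM Pool.Agent.Q57.FG

namespace Pool.Agent.Q57.GG

variable {p N : ℕ} {K : Type} [Field K] [Algebra ℂ K] {δ : Fin p → Place ℂ K → ℚ}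

/-- the section does not vanish at the place -/
def NV (N : ℕ) (δ : Fin p → Place ℂ K → ℚ) (g : Fin p →₀ ℕ)
    (ω : (Fin N → Derivation ℂ K K) → K) (P : Place ℂ K) : Prop :=
  ∃ D, (∀ c, DerReg P (D c)) ∧ ω D ≠ 0 ∧ (P.ord (ω D) : ℚ) ≤ - ∑ i, (g i : ℚ) * δ i P

theorem ne_zero_sum {μ : Fin p →₀ ℕ} (hμ : μ ≠ 0) : 1 ≤ ∑ i, μ i := by
  by_contra hcon
  push Not at hcon
  apply hμ
  ext i
  exact Finset.sum_eq_zero_iff.1 (by omega : ∑ i, μ i = 0) i (Finset.mem_univ i)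

/-- **Semiample combinations are nef.** -/
theorem nefR_of {w : (Fin N → Derivation ℂ K K) → K} {u : K} (hu : u ≠ 0)
    {D0 : Fin N → Derivation ℂ K K}
    (hpl : ∀ (m : ℕ) (η : (Fin N → Derivation ℂ K K) → K), IsPluri m η →
      ∀ D, η D * u ^ m = w D ^ m * η D0)
    {N0 : ℕ} {g : Fin N0 → Fin p →₀ ℕ} {ω : Fin N0 → (Fin N → Derivation ℂ K K) → K}
    (hg : ∀ b, g b ≠ 0 ∧ MSec N δ (g b) (ω b))
    (lam : Fin p → ℝ)
    (h : ∀ P : Place ℂ K, Divisorial N P → ∃ t : Fin N0 → ℝ, (∀ b, 0 ≤ t b) ∧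
      (∀ i, lam i = ∑ b, t b * g b i) ∧ ∀ b, t b ≠ 0 → NV N δ (g b) (ω b) P) :
    NefR N δ lam := by
  classical
  obtain ⟨B, hB⟩ : ∃ B : ℕ, B = ∑ i, ∑ b, g b i := ⟨_, rfl⟩
  have hBi : ∀ i, ∑ b, g b i ≤ B := by
    intro i
    rw [hB]
    exact Finset.single_le_sum (f := fun i => ∑ b, g b i) (fun _ _ => Nat.zero_le _)
      (Finset.mem_univ i)
  refine ⟨{1}, ⟨1, by simp, one_ne_zero⟩, fun M hM => ⟨B + 1, by omega, fun P hP => ?_⟩⟩
  obtain ⟨t, ht, hlt, hnv⟩ := h P hP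
  obtain ⟨e, he⟩ : ∃ e : Fin N0 → ℕ, e = fun b => ⌊((B + 1 : ℕ) : ℝ) * M * t b⌋₊ := ⟨_, rfl⟩
  have he0 : ∀ b, e b ≠ 0 → t b ≠ 0 := by
    intro b hb h0
    apply hb
    rw [he]
    dsimp only
    rw [h0, mul_zero, Nat.floor_zero]
  have hsec := msec_prod (fun b => (hg b).2) e
  -- the vector fields
  obtain ⟨D, hD, hDb⟩ : ∃ D : Fin N → Derivation ℂ K K, (∀ c, DerReg P (D c)) ∧
      ∀ b, t b ≠ 0 → ω b D ≠ 0 ∧ (P.ord (ω b D) : ℚ) ≤ - ∑ i, (g b i : ℚ) * δ i P := by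
    by_cases hall : ∀ b, t b = 0
    · refine ⟨0, fun c => ?_, fun b hb => absurd (hall b) hb⟩
      intro z _
      exact Or.inl rfl
    push Not at hall
    obtain ⟨b0, hb0⟩ := hall
    obtain ⟨D, hD, hne, hle⟩ := hnv b0 hb0
    refine ⟨D, hD, fun b hb => ?_⟩
    obtain ⟨D', hD', hne', hle'⟩ := hnv b hb
    have hm0 := ne_zero_sum (hg b0).1
    have hm := ne_zero_sum (hg b).1
    have key : ∀ (b : Fin N0) (D : Fin N → Derivation ℂ K K), ω b D ≠ 0 →
        w D ≠ 0 ∧ ω b D0 ≠ 0 := by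
      intro b D hb
      have h1 := hpl _ (ω b) (hg b).2.1 D
      have h2 : ω b D * u ^ (∑ i, g b i) ≠ 0 := mul_ne_zero hb (pow_ne_zero _ hu)
      rw [h1] at h2
      refine ⟨fun h3 => h2 ?_, fun h3 => h2 ?_⟩
      · have h4 := ne_zero_sum (hg b).1
        rw [h3, zero_pow (by omega), zero_mul]
      · rw [h3, mul_zero]
    have key2 : ∀ (b : Fin N0) (D : Fin N → Derivation ℂ K K), w D ≠ 0 → ω b D0 ≠ 0 →
        ω b D ≠ 0 ∧ P.ord (ω b D) = ((∑ i, g b i : ℕ) : ℤ) * (P.ord (w D) - P.ord u) +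
          P.ord (ω b D0) := by
      intro b D hwD h0
      have h1 := hpl _ (ω b) (hg b).2.1 D
      have h2 : ω b D ≠ 0 := by
        intro h3
        rw [h3, zero_mul] at h1
        exact mul_ne_zero (pow_ne_zero _ hwD) h0 h1.symm
      refine ⟨h2, ?_⟩
      have h3 := congrArg P.ord h1
      rw [P.ord_mul h2 (pow_ne_zero _ hu), P.ord_mul (pow_ne_zero _ hwD) h0, P.ord_pow,
        P.ord_pow] at h3
      linarith
    obtain ⟨hwD, hb0D0⟩ := key b0 D hne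
    obtain ⟨hwD', hbD0⟩ := key b D' hne'
    obtain ⟨h1, h2⟩ := key2 b D hwD hbD0
    obtain ⟨-, h2'⟩ := key2 b D' hwD' hbD0
    obtain ⟨-, h3⟩ := key2 b0 D hwD hb0D0
    obtain ⟨h4, h3'⟩ := key2 b0 D' hwD' hb0D0
    refine ⟨h1, ?_⟩
    have h5 := ((hg b0).2.2 P hP D' hD').resolve_left h4
    have h6 : P.ord (ω b0 D) ≤ P.ord (ω b0 D') := by
      have h7 : (P.ord (ω b0 D) : ℚ) ≤ (P.ord (ω b0 D') : ℚ) := hle.trans h5
      exact_mod_cast h7
    have h7 : P.ord (w D) ≤ P.ord (w D') := by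
      rw [h3, h3'] at h6
      have h8 : (1 : ℤ) ≤ ((∑ i, g b0 i : ℕ) : ℤ) := by exact_mod_cast hm0
      have h9 : ((∑ i, g b0 i : ℕ) : ℤ) * P.ord (w D) ≤ ((∑ i, g b0 i : ℕ) : ℤ) *
        P.ord (w D') := by linarith
      exact le_of_mul_le_mul_left h9 (by linarith)
    have h8 : P.ord (ω b D) ≤ P.ord (ω b D') := by
      rw [h2, h2']
      have h9 : (0 : ℤ) ≤ ((∑ i, g b i : ℕ) : ℤ) := by positivity
      have h10 := mul_le_mul_of_nonneg_left h7 h9
      linarith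
    have h9 : (P.ord (ω b D) : ℚ) ≤ (P.ord (ω b D') : ℚ) := by exact_mod_cast h8
    exact h9.trans hle'
  refine ⟨∑ b, e b • g b, fun i => ?_, fun D => ∏ b, ω b D ^ e b, msec_asec hsec,
    D, hD, ?_, fun s hs _ => ?_⟩
  · have h1 : (((∑ b, e b • g b) i : ℕ) : ℝ) = ∑ b, (e b : ℝ) * g b i := by
      have h0 : (∑ b, e b • g b) i = ∑ b, e b * g b i := by
        rw [Finsupp.finsetSum_apply]
        exact Finset.sum_congr rfl fun b _ => by rw [Finsupp.smul_apply, smul_eq_mul]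
      rw [h0, Nat.cast_sum]
      exact Finset.sum_congr rfl fun b _ => by rw [Nat.cast_mul]
    rw [h1, hlt i, Finset.mul_sum, ← Finset.sum_sub_distrib]
    refine (Finset.abs_sum_le_sum_abs _ _).trans ?_
    have h2 : ∀ b, |(e b : ℝ) * g b i - ((B + 1 : ℕ) : ℝ) * M * (t b * g b i)| ≤ g b i := by
      intro b
      have h3 : (0 : ℝ) ≤ ((B + 1 : ℕ) : ℝ) * M * t b := by
        have := ht b
        positivity
      have h4 := Nat.floor_le h3
      have h5 := Nat.lt_floor_add_one (((B + 1 : ℕ) : ℝ) * M * t b)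
      have h6 : (e b : ℝ) * g b i - ((B + 1 : ℕ) : ℝ) * M * (t b * g b i) =
          ((⌊((B + 1 : ℕ) : ℝ) * M * t b⌋₊ : ℝ) - ((B + 1 : ℕ) : ℝ) * M * t b) * g b i := by
        rw [he]
        ring
      rw [h6, abs_mul, abs_of_nonneg (by positivity : (0 : ℝ) ≤ g b i)]
      have h7 : |(⌊((B + 1 : ℕ) : ℝ) * M * t b⌋₊ : ℝ) - ((B + 1 : ℕ) : ℝ) * M * t b| ≤ 1 := by
        rw [abs_le]
        constructor <;> linarith
      have h8 : (0 : ℝ) ≤ g b i := by positivity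
      nlinarith
    refine (Finset.sum_le_sum fun b _ => h2 b).trans ?_
    have h3 : ((∑ b, g b i : ℕ) : ℝ) ≤ ((B + 1 : ℕ) : ℝ) := by
      exact_mod_cast (hBi i).trans (Nat.le_succ B)
    push_cast at h3 ⊢
    exact h3
  · refine Finset.prod_ne_zero_iff.2 fun b _ => ?_
    by_cases hb : e b = 0
    · rw [hb, pow_zero]
      exact one_ne_zero
    · exact pow_ne_zero _ (hDb b (he0 b hb)).1
  · rw [Finset.mem_singleton] at hs
    rw [hs, P.ord_one]
    have hord : ∀ s : Finset (Fin N0), (∏ b ∈ s, ω b D ^ e b) ≠ 0 ∧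
        P.ord (∏ b ∈ s, ω b D ^ e b) = ∑ b ∈ s, (e b : ℤ) * P.ord (ω b D) := by
      intro s
      induction s using Finset.induction_on with
      | empty => exact ⟨by simp, by simp [P.ord_one]⟩
      | insert b s hbs ih =>
        rw [Finset.prod_insert hbs, Finset.sum_insert hbs]
        by_cases hb : e b = 0
        · rw [hb, pow_zero, one_mul, Nat.cast_zero, zero_mul, zero_add]
          exact ih
        · have h1 := (hDb b (he0 b hb)).1
          refine ⟨mul_ne_zero (pow_ne_zero _ h1) ih.1, ?_⟩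
          rw [P.ord_mul (pow_ne_zero _ h1) ih.1, P.ord_pow, ih.2]
    rw [(hord Finset.univ).2, Int.cast_sum, Int.cast_zero, mul_zero, zero_sub]
    simp only [Int.cast_mul, Int.cast_natCast]
    have h1 : ∑ b, (e b : ℚ) * P.ord (ω b D) ≤ ∑ b, (e b : ℚ) * - ∑ i, (g b i : ℚ) * δ i P := by
      refine Finset.sum_le_sum fun b _ => ?_
      by_cases hb : e b = 0
      · rw [hb, Nat.cast_zero, zero_mul, zero_mul]
      · exact mul_le_mul_of_nonneg_left (hDb b (he0 b hb)).2 (by positivity)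
    have h2 : ∑ b, (e b : ℚ) * - ∑ i, (g b i : ℚ) * δ i P =
        - ∑ i, (((∑ b, e b • g b) i : ℕ) : ℚ) * δ i P := by
      have h3 : ∀ i, (((∑ b, e b • g b) i : ℕ) : ℚ) = ∑ b, (e b : ℚ) * g b i := by
        intro i
        have h0 : (∑ b, e b • g b) i = ∑ b, e b * g b i := by
          rw [Finsupp.finsetSum_apply]
          exact Finset.sum_congr rfl fun b _ => by rw [Finsupp.smul_apply, smul_eq_mul]
        rw [h0, Nat.cast_sum]
        exact Finset.sum_congr rfl fun b _ => by rw [Nat.cast_mul]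
      simp only [h3, Finset.sum_mul]
      rw [Finset.sum_comm, ← Finset.sum_neg_distrib]
      refine Finset.sum_congr rfl fun b _ => ?_
      rw [mul_neg, Finset.mul_sum]
      congr 1
      exact Finset.sum_congr rfl fun i _ => by ring
    rw [h2] at h1
    exact h1

/-- **The cone of the nef combinations.** -/
theorem nefR_iff {w : (Fin N → Derivation ℂ K K) → K} {u : K} (hu : u ≠ 0)
    {D0 : Fin N → Derivation ℂ K K}
    (hpl : ∀ (m : ℕ) (η : (Fin N → Derivation ℂ K K) → K), IsPluri m η →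
      ∀ D, η D * u ^ m = w D ^ m * η D0)
    {N0 : ℕ} {g : Fin N0 → Fin p →₀ ℕ} {ω : Fin N0 → (Fin N → Derivation ℂ K K) → K}
    (hg : ∀ b, g b ≠ 0 ∧ MSec N δ (g b) (ω b))
    (hord : ∀ (P : Place ℂ K) (S : Finset K) (D : Fin N → Derivation ℂ K K), ∃ C1 : ℕ,
        ∀ (μ : Fin p →₀ ℕ) (j : ℕ) (η : (Fin N → Derivation ℂ K K) → K), μ ≠ 0 →
          ASec N δ S μ j η → η D = 0 ∨ ((∀ b, ω b D ≠ 0) ∧
            ∃ e : Fin N0 → ℕ,
              (∀ i, |∑ b, (e b : ℤ) * g b i - μ i| ≤ C1 * (j + 1)) ∧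
              ∑ b, (e b : ℤ) * P.ord (ω b D) ≤ P.ord (η D) + C1 * (j + 1))) :
    ∃ BB : Finset (Finset (Fin N0)),
      (∀ P : Place ℂ K, Divisorial N P → ∃ B ∈ BB, ∀ b, b ∈ B ↔ NV N δ (g b) (ω b) P) ∧
      ∀ lam : Fin p → ℝ, (∀ i, 0 ≤ lam i) → (NefR N δ lam ↔ ∀ B ∈ BB, ∃ t : Fin N0 → ℝ,
        (∀ b, 0 ≤ t b) ∧ (∀ b, b ∉ B → t b = 0) ∧ ∀ i, lam i = ∑ b, t b * g b i) := by
  classical
  refine ⟨Finset.univ.filter fun B => ∃ P : Place ℂ K, Divisorial N P ∧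
    ∀ b, b ∈ B ↔ NV N δ (g b) (ω b) P, fun P hP => ?_, fun lam hlam => ⟨fun hn B hB => ?_,
    fun h => ?_⟩⟩
  · refine ⟨Finset.univ.filter fun b => NV N δ (g b) (ω b) P, ?_, fun b => by simp⟩
    rw [Finset.mem_filter]
    exact ⟨Finset.mem_univ _, P, hP, fun b => by simp⟩
  · rw [Finset.mem_filter] at hB
    obtain ⟨-, P, hP, hBP⟩ := hB
    obtain ⟨t, ht, hlt, hnv⟩ := semi_of_nefR hu hpl hg hord lam hlam hn P hP
    refine ⟨t, ht, fun b hb => ?_, hlt⟩
    by_contra h0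
    exact hb ((hBP b).2 (hnv b h0))
  · refine nefR_of hu hpl hg lam fun P hP => ?_
    obtain ⟨t, ht, htB, hlt⟩ := h (Finset.univ.filter fun b => NV N δ (g b) (ω b) P) (by
      rw [Finset.mem_filter]
      exact ⟨Finset.mem_univ _, P, hP, fun b => by simp⟩)
    refine ⟨t, ht, hlt, fun b hb => ?_⟩
    by_contra h0
    exact hb (htB b (by simpa using h0))

end Pool.Agent.Q57.GG
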