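import Pool.Agent.Q57.GG.App
import Pool.Agent.Q57.FG.LatA

/-!
The cone of the pseudo-effective real combinations of log canonical divisors.
-/

set_option autoImplicit false
set_option linter.overlappingInstances false
set_option linter.unusedSectionVars false
set_option maxHeartbeats 1000000

open FF MvPolynomial Pool.Agent.W602.GT Pool.Agent.Q57.TP Pool.Agent.Q57.GM Pool.Agent.Q57.FG

namespace Pool.Agent.Q57.GG

variable {p N : ℕ} {K : Type} [Field K] [Algebra ℂ K] {δ : Fin p → Place ℂ K → ℚ}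

/-- a section of `∑ i, μ i (K + Δ i) + j A` -/
def ASec (N : ℕ) (δ : Fin p → Place ℂ K → ℚ) (S : Finset K) (μ : Fin p →₀ ℕ) (j : ℕ)
    (ω : (Fin N → Derivation ℂ K K) → K) : Prop :=
  IsPluri (∑ i, μ i) ω ∧ ∀ P : Place ℂ K, Divisorial N P → ∀ D : Fin N → Derivation ℂ K K,
    (∀ c, DerReg P (D c)) → ω D = 0 ∨ ∃ s ∈ S, s ≠ 0 ∧
      (j : ℚ) * P.ord s - ∑ i, (μ i : ℚ) * δ i P ≤ P.ord (ω D)

theorem asec_iff {S : Finset K} {μ : Fin p →₀ ℕ} {j : ℕ} {ω : (Fin N → Derivation ℂ K K) → K} :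
    ASec N δ S μ j ω ↔ BSec N (av μ δ) S (∑ i, μ i) j ω := by
  unfold ASec BSec
  simp only [av_mul]

theorem msec_asec {μ : Fin p →₀ ℕ} {j : ℕ} {ω : (Fin N → Derivation ℂ K K) → K}
    (h : MSec N δ μ ω) : ASec N δ {1} μ j ω := by
  refine ⟨h.1, fun P hP D hD => (h.2 P hP D hD).imp id fun hle => ⟨1, by simp, one_ne_zero, ?_⟩⟩
  rw [P.ord_one]
  push_cast
  linarith

theorem msec_pow {μ : Fin p →₀ ℕ} {ω : (Fin N → Derivation ℂ K K) → K} (h : MSec N δ μ ω)
    (e : ℕ) : MSec N δ (e • μ) fun D => ω D ^ e := by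
  induction e with
  | zero =>
    have h1 := msec_const (N := N) δ (1 : ℂ)
    rw [map_one] at h1
    rw [zero_smul]
    simpa only [pow_zero] using h1
  | succ e ih =>
    have h1 := msec_mul ih h
    rw [succ_nsmul]
    simpa only [pow_succ] using h1

theorem msec_prod {N0 : ℕ} {g : Fin N0 → Fin p →₀ ℕ}
    {ω : Fin N0 → (Fin N → Derivation ℂ K K) → K} (h : ∀ b, MSec N δ (g b) (ω b))
    (e : Fin N0 → ℕ) : MSec N δ (∑ b, e b • g b) fun D => ∏ b, ω b D ^ e b := by
  classical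
  have key : ∀ s : Finset (Fin N0), MSec N δ (∑ b ∈ s, e b • g b) fun D =>
      ∏ b ∈ s, ω b D ^ e b := by
    intro s
    induction s using Finset.induction_on with
    | empty =>
      have h1 := msec_const (N := N) δ (1 : ℂ)
      rw [map_one] at h1
      simpa using h1
    | insert b s hb ih =>
      have h1 := msec_mul (msec_pow (h b) (e b)) ih
      simpa only [Finset.sum_insert hb, Finset.prod_insert hb] using h1
  exact key Finset.univ

/-- the real combination `∑ i, lam i (K + Δ i)` is pseudo-effective -/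
def PsefR (N : ℕ) (δ : Fin p → Place ℂ K → ℚ) (lam : Fin p → ℝ) : Prop :=
  ∃ S : Finset K, ∀ M : ℕ, ∃ j : ℕ, 1 ≤ j ∧ ∃ μ : Fin p →₀ ℕ,
    (∀ i, |(μ i : ℝ) - j * M * lam i| ≤ j) ∧
      ∃ η : (Fin N → Derivation ℂ K K) → K, η ≠ 0 ∧ ASec N δ S μ j η

/-- **The pseudo-effective cone.** -/
theorem psefR_iff {N0 : ℕ} {g : Fin N0 → Fin p →₀ ℕ}
    {ω : Fin N0 → (Fin N → Derivation ℂ K K) → K}
    (hg : ∀ b, g b ≠ 0 ∧ MSec N δ (g b) (ω b)) {P : Place ℂ K} {D0 : Fin N → Derivation ℂ K K}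
    (hD0 : ∀ b, ω b D0 ≠ 0)
    (hdet : ∀ (m : ℕ) (η : (Fin N → Derivation ℂ K K) → K), IsPluri m η → η ≠ 0 → η D0 ≠ 0)
    (hord : ∀ (S : Finset K), ∃ C1 : ℕ,
        ∀ (μ : Fin p →₀ ℕ) (j : ℕ) (η : (Fin N → Derivation ℂ K K) → K), μ ≠ 0 →
          ASec N δ S μ j η → η D0 = 0 ∨ ∃ e : Fin N0 → ℕ,
              ∀ i, |∑ b, (e b : ℤ) * g b i - μ i| ≤ C1 * (j + 1))
    (lam : Fin p → ℝ) (hlam : ∀ i, 0 ≤ lam i) :
    PsefR N δ lam ↔ ∃ t : Fin N0 → ℝ, (∀ b, 0 ≤ t b) ∧ ∀ i, lam i = ∑ b, t b * g b i := by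
  classical
  constructor
  · rintro ⟨S, hS⟩
    obtain ⟨C1, hC1⟩ := hord S
    refine cone_closed (fun b i => ((g b i : ℕ) : ℝ)) (fun b i => by positivity) (fun b => ?_)
      lam fun ε hε => ?_
    · have h1 : ∃ i, g b i ≠ 0 := by
        by_contra hcon
        push Not at hcon
        exact (hg b).1 (Finsupp.ext hcon)
      obtain ⟨i, hi⟩ := h1
      have h2 : (1 : ℝ) ≤ g b i := by
        have : 1 ≤ g b i := Nat.one_le_iff_ne_zero.2 hi
        exact_mod_cast this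
      exact h2.trans (Finset.single_le_sum (f := fun i => ((g b i : ℕ) : ℝ))
        (fun i _ => by positivity) (Finset.mem_univ i))
    · obtain ⟨M, hM⟩ := exists_nat_gt ((2 * C1 + 1) / ε)
      rw [div_lt_iff₀ hε] at hM
      have hM0 : (0 : ℝ) < M := by
        by_contra hcon
        push Not at hcon
        have h1 : (M : ℝ) * ε ≤ 0 := mul_nonpos_of_nonpos_of_nonneg hcon hε.le
        have h2 : (0 : ℝ) ≤ C1 := by positivity
        linarith
      obtain ⟨j, hj, μ, hμ, η, hη0, hη⟩ := hS M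
      have hj0 : (1 : ℝ) ≤ j := by exact_mod_cast hj
      have hC0 : (0 : ℝ) ≤ C1 := by positivity
      have hjM : (0 : ℝ) < j * M := by positivity
      by_cases hμ0 : μ = 0
      · refine ⟨0, fun b => le_rfl, fun i => ?_⟩
        have h1 := hμ i
        rw [hμ0, Finsupp.zero_apply, Nat.cast_zero, zero_sub, abs_neg, abs_of_nonneg
          (mul_nonneg hjM.le (hlam i))] at h1
        have h2 : (M : ℝ) * lam i ≤ 1 := by
          have h3 : (j : ℝ) * (M * lam i) ≤ j * 1 := by linarith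
          exact le_of_mul_le_mul_left h3 (by linarith)
        simp only [Pi.zero_apply, zero_mul, Finset.sum_const_zero, zero_sub, abs_neg]
        rw [abs_of_nonneg (hlam i)]
        have h4 : (M : ℝ) * lam i ≤ M * ε := by linarith
        exact le_of_mul_le_mul_left h4 hM0
      · obtain ⟨e, he⟩ := (hC1 μ j η hμ0 hη).resolve_left (hdet _ η hη.1 hη0)
        refine ⟨fun b => (e b : ℝ) / (j * M), fun b => by positivity, fun i => ?_⟩
        have h1 : |∑ b, (e b : ℝ) * g b i - μ i| ≤ C1 * (j + 1) := by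
          have h2 := he i
          have h3 : ((|∑ b, (e b : ℤ) * g b i - μ i| : ℤ) : ℝ) ≤ ((C1 * (j + 1) : ℤ) : ℝ) := by
            exact_mod_cast h2
          push_cast at h3
          exact h3
        have h2 : ∑ b, (e b : ℝ) / (j * M) * g b i - lam i =
            ((∑ b, (e b : ℝ) * g b i - μ i) + (μ i - j * M * lam i)) / (j * M) := by
          rw [eq_div_iff hjM.ne', sub_mul, Finset.sum_mul]
          have h3 : ∀ b, (e b : ℝ) / (j * M) * g b i * (j * M) = (e b : ℝ) * g b i := by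
            intro b
            field_simp
          rw [Finset.sum_congr rfl fun b _ => h3 b]
          ring
        rw [h2, abs_div, abs_of_pos hjM, div_le_iff₀ hjM]
        have h3 := (abs_add_le (∑ b, (e b : ℝ) * g b i - μ i) (μ i - j * M * lam i)).trans
          (add_le_add h1 (hμ i))
        refine h3.trans ?_
        have h4 : (C1 : ℝ) * (j + 1) + j ≤ (2 * C1 + 1) * j := by nlinarith
        have h5 : (j : ℝ) * (2 * C1 + 1) ≤ j * (M * ε) :=
          mul_le_mul_of_nonneg_left hM.le (by linarith)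
        nlinarith
  · rintro ⟨t, ht, hlt⟩
    refine ⟨{1}, fun M => ?_⟩
    obtain ⟨B, hB⟩ : ∃ B : ℕ, B = ∑ i, ∑ b, g b i := ⟨_, rfl⟩
    have hBi : ∀ i, ∑ b, g b i ≤ B := by
      intro i
      rw [hB]
      exact Finset.single_le_sum (f := fun i => ∑ b, g b i) (fun _ _ => Nat.zero_le _)
        (Finset.mem_univ i)
    refine ⟨B + 1, by omega, ∑ b, ⌊((B + 1 : ℕ) : ℝ) * M * t b⌋₊ • g b, fun i => ?_,
      fun D => ∏ b, ω b D ^ ⌊((B + 1 : ℕ) : ℝ) * M * t b⌋₊, ?_,
      msec_asec (msec_prod (fun b => (hg b).2) _)⟩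
    · have h1 : (((∑ b, ⌊((B + 1 : ℕ) : ℝ) * M * t b⌋₊ • g b) i : ℕ) : ℝ) =
          ∑ b, (⌊((B + 1 : ℕ) : ℝ) * M * t b⌋₊ : ℝ) * g b i := by
        have h0 : (∑ b, ⌊((B + 1 : ℕ) : ℝ) * M * t b⌋₊ • g b) i =
            ∑ b, ⌊((B + 1 : ℕ) : ℝ) * M * t b⌋₊ * g b i := by
          rw [Finsupp.finsetSum_apply]
          exact Finset.sum_congr rfl fun b _ => by rw [Finsupp.smul_apply, smul_eq_mul]
        rw [h0, Nat.cast_sum]
        exact Finset.sum_congr rfl fun b _ => by rw [Nat.cast_mul]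
      rw [h1, hlt i, Finset.mul_sum, ← Finset.sum_sub_distrib]
      refine (Finset.abs_sum_le_sum_abs _ _).trans ?_
      have h2 : ∀ b, |(⌊((B + 1 : ℕ) : ℝ) * M * t b⌋₊ : ℝ) * g b i -
          ((B + 1 : ℕ) : ℝ) * M * (t b * g b i)| ≤ g b i := by
        intro b
        have h3 : (0 : ℝ) ≤ ((B + 1 : ℕ) : ℝ) * M * t b := by
          have := ht b
          positivity
        have h4 := Nat.floor_le h3
        have h5 := Nat.lt_floor_add_one (((B + 1 : ℕ) : ℝ) * M * t b)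
        have h6 : (⌊((B + 1 : ℕ) : ℝ) * M * t b⌋₊ : ℝ) * g b i -
            ((B + 1 : ℕ) : ℝ) * M * (t b * g b i) =
            ((⌊((B + 1 : ℕ) : ℝ) * M * t b⌋₊ : ℝ) - ((B + 1 : ℕ) : ℝ) * M * t b) * g b i := by
          ring
        rw [h6, abs_mul, abs_of_nonneg (by positivity : (0 : ℝ) ≤ g b i)]
        have h7 : |(⌊((B + 1 : ℕ) : ℝ) * M * t b⌋₊ : ℝ) - ((B + 1 : ℕ) : ℝ) * M * t b| ≤ 1 := by
          rw [abs_le]
          constructor <;> linarith
        have h8 : (0 : ℝ) ≤ g b i := by positivity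
        nlinarith
      refine (Finset.sum_le_sum fun b _ => h2 b).trans ?_
      have h3 : ((∑ b, g b i : ℕ) : ℝ) ≤ ((B + 1 : ℕ) : ℝ) := by
        exact_mod_cast (hBi i).trans (Nat.le_succ B)
      push_cast at h3 ⊢
      exact h3
    · intro h0
      have h1 := congrFun h0 D0
      rw [Pi.zero_apply, Finset.prod_eq_zero_iff] at h1
      obtain ⟨b, -, hb⟩ := h1
      exact pow_ne_zero _ (hD0 b) hb

end Pool.Agent.Q57.GG
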