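import Pool.Agent.Q57.GG.App
import Pool.Agent.Q57.FG.FgA

/-!
The asymptotic orders of the sections of `∑ i, μ i (K + Δ i) + j A` are computed by finitely many
sections, for covers of the projective space.
-/

set_option autoImplicit false
set_option linter.overlappingInstances false
set_option linter.unusedSectionVars false
set_option maxHeartbeats 1000000

open FF MvPolynomial Pool.Agent.W603.LV Pool.Agent.W619.PQ
open Pool.Agent.W619.TW Pool.Agent.W602.GT Pool.Agent.TH122.AB Pool.Agent.TH756.PN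
open Pool.Agent.Y169.CH Pool.Agent.W602.Cov Pool.Agent.W602.Cov.G Pool.Agent.Y169.TH
open Pool.Agent.Q57.TP Pool.Agent.TH152.AC Pool.Agent.Q57.GM Pool.Agent.Q57.FG

namespace Pool.Agent.Q57.GG

variable {d p : ℕ} {Φ : Arr (d + 1)} {K : Type} [Field K] [Algebra ℂ K] {R : ℕ} (C : Cv Φ K R)
  {c : Fin p → (Fin (d + 2) → ℕ) → ℚ} {δ : Fin p → Place ℂ K → ℚ}

/-- the functionals: the degrees and the order -/
def fnl (p N : ℕ) (b : ℤ) (l : Fin N → ℤ) : Option (Fin p) → (((Fin p → ℤ) × (Fin N → ℤ)) →+ ℤ)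
  | none => AddMonoidHom.mk' (fun γ => b * ∑ i, γ.1 i + ∑ k, l k * γ.2 k) (by
      intro x y
      simp only [Prod.fst_add, Prod.snd_add, Pi.add_apply, mul_add, Finset.sum_add_distrib]
      ring)
  | some i => AddMonoidHom.mk' (fun γ => γ.1 i) (by
      intro x y
      rfl)

theorem fnl_none {p N : ℕ} (b : ℤ) (l : Fin N → ℤ) (γ : (Fin p → ℤ) × (Fin N → ℤ)) :
    fnl p N b l none γ = b * ∑ i, γ.1 i + ∑ k, l k * γ.2 k := rfl

theorem fnl_some {p N : ℕ} (b : ℤ) (l : Fin N → ℤ) (γ : (Fin p → ℤ) × (Fin N → ℤ)) (i : Fin p) :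
    fnl p N b l (some i) γ = γ.1 i := rfl

/-- **The asymptotic orders.** -/
theorem geoA (hcf : ∀ i, Coef C (c i) (δ i))
    (hmul : ∀ i v (r : ℕ), 1 ≤ r → Pool.Agent.Y169.TH.Adm C.M C.a v →
      1 - c i (r • v) ≤ r * (1 - c i v))
    {T : Finset (Fin (d + 2) → ℕ)} (hT : BigM C.M C.a c T)
    (hκ : 0 ≤ ∑ k, (Φ.dF k : ℤ) - (d + 2)) :
    ∃ (N0 : ℕ) (g : Fin N0 → Fin p →₀ ℕ) (ω : Fin N0 → (Fin (d + 1) → Derivation ℂ K K) → K),
      (∀ b, g b ≠ 0 ∧ MSec (d + 1) δ (g b) (ω b)) ∧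
      (∀ (P : Place ℂ K) (S : Finset K) (D : Fin (d + 1) → Derivation ℂ K K), ∃ C1 : ℕ,
        ∀ (μ : Fin p →₀ ℕ) (j : ℕ) (η : (Fin (d + 1) → Derivation ℂ K K) → K), μ ≠ 0 →
          BSec (d + 1) (av μ δ) S (∑ i, μ i) j η → η D = 0 ∨ ((∀ b, ω b D ≠ 0) ∧
            ∃ e : Fin N0 → ℕ,
              (∀ i, |∑ b, (e b : ℤ) * g b i - μ i| ≤ C1 * (j + 1)) ∧
              ∑ b, (e b : ℤ) * P.ord (ω b D) ≤ P.ord (η D) + C1 * (j + 1))) ∧
      ∃ D0 : Fin (d + 1) → Derivation ℂ K K, (∀ b, ω b D0 ≠ 0) ∧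
        ∀ (m : ℕ) (η : (Fin (d + 1) → Derivation ℂ K K) → K), IsPluri m η → η ≠ 0 →
          η D0 ≠ 0 := by
  classical
  obtain ⟨L, hL, hden⟩ := exists_den fun s : Fin p × T => 1 - c s.1 s.2.1
  choose q' hq' using hden
  obtain ⟨q, hq⟩ : ∃ q : Fin p → T → ℤ, q = fun i s => q' (i, s) := ⟨_, rfl⟩
  have hqs : ∀ i (s : T), (L : ℚ) * (1 - c i s.1) = q i s := fun i s => by
    rw [hq]
    exact hq' (i, s)
  obtain ⟨κ, hκd⟩ : ∃ κ : ℤ, κ = ∑ k, (Φ.dF k : ℤ) - (d + 2) := ⟨_, rfl⟩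
  rw [← hκd] at hκ
  have hEpos : (0 : ℤ) < Φ.E := by exact_mod_cast Φ.E_pos
  obtain ⟨G, hG1, hG2⟩ := gordan (consM T Φ.ee Φ.E L κ q) consM_inj
  -- the vector fields
  obtain ⟨D0, hD0'⟩ := exists_dual C.u_bas
  have hD0 : ∀ i j, D0 i (C.u j) = if i = j then 1 else 0 := by
    intro i j
    have h1 := congrFun (congrFun hD0' i) j
    rw [Matrix.of_apply, Matrix.one_apply] at h1
    exact h1
  have hbw0 : bw D0 C.x = 1 := by
    rw [Pool.Agent.W930.CG.bw_one D0 C.x C.hx0]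
    change (Matrix.of fun i j => D0 i (C.u j)).det = 1
    rw [hD0', Matrix.det_one]
  have hdet : ∀ (m : ℕ) (η : (Fin (d + 1) → Derivation ℂ K K) → K), IsPluri m η → η ≠ 0 →
      η D0 ≠ 0 := by
    intro m η hη h0 h1
    apply h0
    funext D
    rw [pluri_eq C hD0 hη D, h1, mul_zero]
    rfl
  -- the sections
  obtain ⟨ω, hωd⟩ : ∃ ω : Fin G.card → (Fin (d + 1) → Derivation ℂ K K) → K,
    ω = fun b => sG C (∑ i, toN (G.equivFin.symm b).1.1 i) (G.equivFin.symm b).1.2 := ⟨_, rfl⟩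
  obtain ⟨g, hgd⟩ : ∃ g : Fin G.card → Fin p →₀ ℕ,
    g = fun b => toN (G.equivFin.symm b).1.1 := ⟨_, rfl⟩
  have hex : ∀ b, ExM T Φ.ee Φ.E L κ q (G.equivFin.symm b).1 := fun b =>
    (hG1 _ (G.equivFin.symm b).2).2
  have hgi : ∀ b i, ((g b i : ℕ) : ℤ) = (G.equivFin.symm b).1.1 i := fun b i => by
    rw [hgd]
    exact toN_coe (hex b).nn i
  have hωne : ∀ D, bw D C.x ≠ 0 → ∀ b, ω b D ≠ 0 := by
    intro D hD b
    rw [hωd]
    exact mul_ne_zero (pow_ne_zero _ hD) (prod_ne C _ _)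
  refine ⟨G.card, g, ω, fun b => ⟨?_, ?_⟩, fun P S D => ?_, D0, hωne D0 (by
    rw [hbw0]
    exact one_ne_zero), hdet⟩
  · -- the degrees are not zero
    intro h0
    have h1 : (G.equivFin.symm b).1.1 = 0 := by
      funext i
      rw [← hgi b i, h0]
      rfl
    have h2 := (hex b).eq
    rw [h1] at h2
    simp only [Pi.zero_apply, Finset.sum_const_zero, mul_zero] at h2
    have h3 : ∑ k, (G.equivFin.symm b).1.2 k = 0 := (mul_eq_zero.1 h2).resolve_left hEpos.ne'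
    have h4 : ∀ k, 0 ≤ (G.equivFin.symm b).1.2 k := fun k => hex b (Sum.inr (Sum.inl k))
    refine (hG1 _ (G.equivFin.symm b).2).1 (Prod.ext h1 ?_)
    funext k
    exact (Finset.sum_eq_zero_iff_of_nonneg fun k _ => h4 k).1 h3 k (Finset.mem_univ k)
  · -- sections
    refine bsec_msec ?_
    rw [hωd, hgd]
    dsimp only
    refine sG_sec C (av_coef C _ hcf) ?_ fun v hv => ?_
    · rw [(hex b).eq, hκd]
      push_cast
      congr 1
      exact Finset.sum_congr rfl fun i _ => (toN_coe (hex b).nn i).symm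
    · have h1 := exM_adm hT hL hqs (hex b) hv
      refine le_trans (le_of_eq ?_) h1
      rw [mul_sub, av_mul]
      push_cast
      rw [mul_one, ← Finset.sum_sub_distrib]
      refine Finset.sum_congr rfl fun i _ => ?_
      have h2 : ((toN (G.equivFin.symm b).1.1 i : ℕ) : ℚ) = (G.equivFin.symm b).1.1 i := by
        exact_mod_cast toN_coe (hex b).nn i
      rw [h2]
      ring
  -- the orders
  by_cases hbw : bw D C.x = 0
  · refine ⟨0, fun μ j η hμ hη => Or.inl ?_⟩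
    have hm : ∑ i, μ i ≠ 0 := by
      intro h0
      apply hμ
      ext i
      exact Finset.sum_eq_zero_iff.1 h0 i (Finset.mem_univ i)
    rw [pluri_eq C hD0 hη.1 D, hbw, zero_pow hm, zero_mul]
  obtain ⟨α, v, hα, hdat⟩ := C.exists_dat P
  choose X hX using fun s : T => C.exists_dir (hT.adm s.1 s.2)
  obtain ⟨N0, β, Q, c1, hQ, hstr⟩ := sec_str_u C X hD0 S
  obtain ⟨B0, hB0⟩ : ∃ B0 : ℤ, B0 = P.ord (bw D C.x) + α * κ - ∑ k, ((Φ.dF k : ℤ) * α + v k) :=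
    ⟨_, rfl⟩
  obtain ⟨Cs, hCs⟩ := approx (consM T Φ.ee Φ.E L κ q) consM_inj
    (Sum.elim (fun _ => (L : ℤ) * c1) (Sum.elim (fun _ => (c1 : ℤ)) (Sum.elim (fun _ => 0)
      fun _ => (c1 : ℤ) + Φ.E)))
    (fnl p (d + 2) B0 fun k => (Φ.ee k : ℤ) * v k)
  obtain ⟨B, hB⟩ : ∃ B : ℤ, B = ∑ i, |P.ord (β i)| := ⟨_, rfl⟩
  have hB0' : 0 ≤ B := by
    rw [hB]
    exact Finset.sum_nonneg fun _ _ => abs_nonneg _
  have hBle : ∀ i, - B ≤ P.ord (β i) := by
    intro i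
    have h1 := Finset.single_le_sum (f := fun i => |P.ord (β i)|) (fun _ _ => abs_nonneg _)
      (Finset.mem_univ i)
    have h2 := neg_abs_le (P.ord (β i))
    rw [hB]
    linarith
  obtain ⟨C1, hC1⟩ : ∃ C1 : ℕ, (C1 : ℤ) = Cs + |α| * (c1 + Φ.E) + B + |P.ord Q| := by
    have h1 : 0 ≤ (Cs : ℤ) + |α| * (c1 + Φ.E) + B + |P.ord Q| := by positivity
    exact ⟨_, Int.toNat_of_nonneg h1⟩
  refine ⟨C1, fun μ j η hμ hη => ?_⟩
  by_cases hηD : η D = 0
  · exact Or.inl hηD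
  refine Or.inr ⟨hωne D hbw, ?_⟩
  obtain ⟨m, hm⟩ : ∃ m : ℕ, m = ∑ i, μ i := ⟨_, rfl⟩
  rw [← hm] at hη
  have hpl := pluri_eq C hD0 hη.1 D
  have hη0 : η D0 ≠ 0 := by
    intro h0
    apply hηD
    rw [hpl, h0, mul_zero]
  -- the degree
  obtain ⟨t, ht1, ht2⟩ := exists_deg Φ.E_pos (B := κ * m + c1 * (j + 1)) (by positivity)
  obtain ⟨Rp, hR, hRs⟩ := hstr (av_coef C μ hcf) (fun v r hr hv => av_ray μ hr fun i =>
    hmul i v r hr hv) m j t η (bsec_sec hη) (by rw [← hκd]; exact ht1)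
  obtain ⟨z, hz⟩ : ∃ z, z = η D0 * C.Lam m := ⟨_, rfl⟩
  have hz0 : z ≠ 0 := by
    rw [hz]
    exact mul_ne_zero hη0 (C.Lam_ne m)
  rw [← hz] at hR
  have hG0 : aeval C.x (Φ.G 0) ≠ 0 := C.G_ne 0
  have hsum : ∑ i, aeval C.Y (Rp i) * β i ≠ 0 := by
    rw [← hR]
    exact mul_ne_zero (div_ne_zero hz0 (pow_ne_zero _ hG0)) (pow_ne_zero _ hQ)
  obtain ⟨i, a, ha, hia⟩ := ord_sum_low P C.Y_ne Rp β hsum
  rw [← hR, P.ord_mul (div_ne_zero hz0 (pow_ne_zero _ hG0)) (pow_ne_zero _ hQ),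
    P.ord_div hz0 (pow_ne_zero _ hG0), P.ord_pow, P.ord_pow, C.ord_G hdat] at hia
  -- the lattice point
  obtain ⟨a', ha'⟩ : ∃ a' : Fin (d + 2) → ℤ,
    a' = Fin.cases ((t : ℤ) - ∑ b, (a b : ℤ)) fun b => (a b : ℤ) := ⟨_, rfl⟩
  obtain ⟨μ', hμ'⟩ : ∃ μ' : Fin p → ℤ, μ' = fun i => ((μ i : ℕ) : ℤ) := ⟨_, rfl⟩
  have ha0 : a' 0 = (t : ℤ) - ∑ b, (a b : ℤ) := by rw [ha']; rfl
  have has : ∀ b : Fin (d + 1), a' b.succ = a b := fun b => by rw [ha']; rfl
  have hsuma : ∑ k, a' k = t := by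
    rw [Fin.sum_univ_succ, ha0, Finset.sum_congr rfl fun b _ => has b]
    ring
  have hsumμ : ∑ i, μ' i = m := by
    rw [hμ', hm]
    push_cast
    rfl
  have hlin : ∀ w : Fin (d + 2) → ℕ, ∑ k, (Φ.ee k : ℤ) * w k * a' k =
      (Φ.ee 0 * w 0 : ℤ) * (t - ∑ b, (a b : ℤ)) +
        ∑ b, (Φ.ee b.succ * w b.succ : ℤ) * a b := by
    intro w
    rw [Fin.sum_univ_succ, ha0]
    congr 1
    exact Finset.sum_congr rfl fun b _ => by rw [has]
  have hT1 : ∀ s : T, (1 - av μ c s.1) * m - c1 * (j + 1) ≤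
      ((∑ k, (Φ.ee k : ℤ) * s.1 k * a' k : ℤ) : ℚ) := by
    intro s
    have h1 := hRs i a ha s
    rw [hX, ← hlin] at h1
    exact h1
  have hav : ∀ v, (m : ℚ) * av μ c v = ∑ i, (μ i : ℚ) * c i v := by
    intro v
    rw [hm]
    exact av_mul μ c v
  have hcons : ∀ s, - ((Sum.elim (fun _ => (L : ℤ) * c1) (Sum.elim (fun _ => (c1 : ℤ))
      (Sum.elim (fun _ => 0) fun _ => (c1 : ℤ) + Φ.E)) :
        T ⊕ (Fin (d + 2) ⊕ (Fin p ⊕ Fin 2)) → ℤ) s * ((j + 1 : ℕ) : ℤ)) ≤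
      consM T Φ.ee Φ.E L κ q (μ', a') s := by
    intro s
    rcases s with s | k | i' | l
    · rw [consM_vec, Sum.elim_inl]
      have h1 := hT1 s
      have hLq : (0 : ℚ) < L := by exact_mod_cast hL
      have h2 := mul_le_mul_of_nonneg_left h1 hLq.le
      have h4 : ((∑ i, q i s * μ' i : ℤ) : ℚ) = L * ((1 - av μ c s.1) * m) := by
        push_cast
        have h5 : (L : ℚ) * ((1 - av μ c s.1) * m) = L * (m - m * av μ c s.1) := by ring
        rw [h5, hav, hm, hμ']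
        push_cast
        rw [← Finset.sum_sub_distrib, Finset.mul_sum]
        refine Finset.sum_congr rfl fun i _ => ?_
        rw [← hqs i s]
        ring
      have h3 : (((- ((L : ℤ) * c1 * ((j + 1 : ℕ) : ℤ)) : ℤ)) : ℚ) ≤
          ((L * ∑ k, (Φ.ee k : ℤ) * s.1 k * a' k - ∑ i, q i s * μ' i : ℤ) : ℚ) := by
        rw [Int.cast_sub, h4]
        push_cast at h2 ⊢
        linarith
      exact_mod_cast h3
    · rw [consM_coord, Sum.elim_inr, Sum.elim_inl]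
      have h1 := hT1 ⟨_, hT.unit k⟩
      have h2 : ∑ l, (Φ.ee l : ℤ) * uv C.M k l * a' l = Φ.ee k * per C.M * a' k := by
        rw [Finset.sum_eq_single k]
        · unfold uv
          rw [if_pos rfl]
        · intro l _ hl
          unfold uv
          rw [if_neg hl]
          simp
        · intro h
          exact absurd (Finset.mem_univ _) h
      dsimp only at h1
      rw [h2] at h1
      have h3 := av_le μ (uv C.M k) fun i => (hcf i).le (uv C.M k)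
      have h4 : (0 : ℚ) ≤ (1 - av μ c (uv C.M k)) * m := mul_nonneg (by linarith) (by positivity)
      have h5 : (((- ((c1 : ℤ) * ((j + 1 : ℕ) : ℤ)) : ℤ)) : ℚ) ≤
          ((Φ.ee k * per C.M * a' k : ℤ) : ℚ) := by
        push_cast at h1 ⊢
        linarith
      have h6 : - ((c1 : ℤ) * ((j + 1 : ℕ) : ℤ)) ≤ Φ.ee k * per C.M * a' k := by exact_mod_cast h5
      by_cases h7 : 0 ≤ a' k
      · have : (0 : ℤ) ≤ (c1 : ℤ) * ((j + 1 : ℕ) : ℤ) := by positivity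
        dsimp only
        linarith
      · push Not at h7
        have h8 : (1 : ℤ) ≤ Φ.ee k * per C.M := by
          have h9 := Nat.mul_pos (Φ.ee_pos k) (per_pos C.hM)
          exact_mod_cast h9
        dsimp only
        nlinarith
    · rw [consM_m, Sum.elim_inr, Sum.elim_inr, Sum.elim_inl, zero_mul, neg_zero, hμ']
      positivity
    · have h1 : (0 : ℤ) ≤ (c1 : ℤ) * (j + 1) := by positivity
      have h2 : (0 : ℤ) ≤ (Φ.E : ℤ) * j := by positivity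
      fin_cases l
      · change - (((c1 : ℤ) + Φ.E) * ((j + 1 : ℕ) : ℤ)) ≤ Φ.E * ∑ k, a' k - κ * ∑ i, μ' i
        rw [hsuma, hsumμ]
        push_cast
        linarith
      · change - (((c1 : ℤ) + Φ.E) * ((j + 1 : ℕ) : ℤ)) ≤ κ * ∑ i, μ' i - Φ.E * ∑ k, a' k
        rw [hsuma, hsumμ]
        push_cast
        linarith
  obtain ⟨γ0, hγ0, hγ0'⟩ := hCs (μ', a') (j + 1) hcons
  -- the monomial
  obtain ⟨e', he'⟩ := closure_comb G (hG2 γ0 hγ0)
  have hsumG : ∀ f : ((Fin p → ℤ) × (Fin (d + 2) → ℤ)) →+ ℤ,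
      ∑ b, ((e' (G.equivFin.symm b).1 : ℕ) : ℤ) * f (G.equivFin.symm b).1 = f γ0 := by
    intro f
    conv_rhs => rw [he', map_sum]
    rw [← Finset.sum_coe_sort G, ← Equiv.sum_comp G.equivFin.symm]
    exact Finset.sum_congr rfl fun b _ => by rw [map_nsmul, nsmul_eq_mul]
  have hCsC : (Cs : ℤ) ≤ C1 := by
    rw [hC1]
    have : (0 : ℤ) ≤ |α| * (c1 + Φ.E) := by positivity
    have := abs_nonneg (P.ord Q)
    linarith
  refine ⟨fun b => e' (G.equivFin.symm b).1, fun i => ?_, ?_⟩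
  · have h1 := hγ0' (some i)
    rw [fnl_some, fnl_some, abs_sub_comm] at h1
    have h2 := hsumG (fnl p (d + 2) B0 (fun k => (Φ.ee k : ℤ) * v k) (some i))
    simp only [fnl_some] at h2
    have h3 : ∑ b, ((e' (G.equivFin.symm b).1 : ℕ) : ℤ) * ((g b i : ℕ) : ℤ) = γ0.1 i := by
      rw [← h2]
      exact Finset.sum_congr rfl fun b _ => by rw [hgi]
    rw [h3]
    have h4 : ((μ i : ℕ) : ℤ) = μ' i := by rw [hμ']
    rw [h4]
    refine h1.trans ?_
    push_cast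
    exact mul_le_mul_of_nonneg_right hCsC (by positivity)
  · have hord : ∀ b, P.ord (ω b D) = fnl p (d + 2) B0 (fun k => (Φ.ee k : ℤ) * v k) none
        (G.equivFin.symm b).1 := by
      intro b
      have h2 : ((∑ i, toN (G.equivFin.symm b).1.1 i : ℕ) : ℤ) =
          ∑ i, (G.equivFin.symm b).1.1 i := by
        push_cast
        exact Finset.sum_congr rfl fun i _ => toN_coe (hex b).nn i
      have h3 : (Φ.E : ℤ) * ∑ k, (G.equivFin.symm b).1.2 k = (∑ k, (Φ.dF k : ℤ) - (d + 2)) *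
          ((∑ i, toN (G.equivFin.symm b).1.1 i : ℕ) : ℤ) := by
        rw [h2, ← hκd]
        exact (hex b).eq
      have h1 := ord_sG C hdat hbw h3
      rw [hωd]
      dsimp only
      rw [h1, h2, fnl_none, hB0, ← hκd]
      ring
    have h1 := hsumG (fnl p (d + 2) B0 (fun k => (Φ.ee k : ℤ) * v k) none)
    have h2 : ∑ b, ((e' (G.equivFin.symm b).1 : ℕ) : ℤ) * P.ord (ω b D) =
        fnl p (d + 2) B0 (fun k => (Φ.ee k : ℤ) * v k) none γ0 := by
      rw [← h1]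
      exact Finset.sum_congr rfl fun b _ => by rw [hord]
    rw [h2]
    have h3 := (abs_le.1 (hγ0' none)).1
    rw [fnl_none (γ := (μ', a'))] at h3
    dsimp only at h3
    rw [hsumμ] at h3
    have hordη : P.ord (η D) = m * P.ord (bw D C.x) + P.ord z -
        m * ∑ k, ((Φ.dF k : ℤ) * α + v k) := by
      have h1 : P.ord z = P.ord (η D0) + m * ∑ k, ((Φ.dF k : ℤ) * α + v k) := by
        rw [hz, P.ord_mul hη0 (C.Lam_ne m), C.ord_Lam]
        congr 2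
        exact Finset.sum_congr rfl fun k _ => hdat.hv k
      rw [hpl, P.ord_mul (pow_ne_zero _ hbw) hη0, P.ord_pow]
      linarith
    rw [hordη]
    have hYs : ∑ b, (a b : ℤ) * P.ord (C.Y b) = ∑ k, (Φ.ee k : ℤ) * v k * a' k -
        t * (Φ.ee 0 * v 0) := by
      rw [hlin]
      have h1 : ∀ b, (a b : ℤ) * P.ord (C.Y b) = (Φ.ee b.succ * v b.succ : ℤ) * a b -
          (a b : ℤ) * (Φ.ee 0 * v 0) := by
        intro b
        rw [C.ord_Y hdat]
        ring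
      rw [Finset.sum_congr rfl fun b _ => h1 b, Finset.sum_sub_distrib, ← Finset.sum_mul]
      ring
    rw [hYs] at hia
    have hβ := hBle i
    obtain ⟨ℓa, hℓa⟩ : ∃ ℓa, ℓa = ∑ k, (Φ.ee k : ℤ) * v k * a' k := ⟨_, rfl⟩
    obtain ⟨bD, hbD⟩ : ∃ bD, bD = P.ord (bw D C.x) := ⟨_, rfl⟩
    obtain ⟨XX, hXX⟩ : ∃ XX, XX = ∑ k, ((Φ.dF k : ℤ) * α + v k) := ⟨_, rfl⟩
    obtain ⟨oz, hoz⟩ : ∃ oz, oz = P.ord z := ⟨_, rfl⟩
    obtain ⟨oQ, hoQ⟩ : ∃ oQ, oQ = P.ord Q := ⟨_, rfl⟩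
    obtain ⟨w0, hw0⟩ : ∃ w0, w0 = fnl p (d + 2) B0 (fun k => (Φ.ee k : ℤ) * v k) none γ0 :=
      ⟨_, rfl⟩
    rw [← hℓa] at hia h3
    rw [← hw0] at h3 ⊢
    rw [hB0, ← hbD, ← hXX] at h3
    rw [← hbD, ← hXX, ← hoz]
    rw [← hoz, ← hoQ] at hia
    rw [← hoQ] at hC1
    -- the lower bound for `oz`
    have h4 : Φ.E * t * α + ℓa - B - (j + 1) * |oQ| ≤ oz := by
      have h2 : ((j + 1 : ℕ) : ℤ) * oQ ≤ (j + 1) * |oQ| := by
        push_cast
        exact mul_le_mul_of_nonneg_left (le_abs_self _) (by positivity)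
      linarith
    -- the degree
    have h5 : κ * m * α ≤ Φ.E * t * α + |α| * ((c1 + Φ.E) * (j + 1)) := by
      have h6 : 0 ≤ Φ.E * t - κ * m := by
        have : (0 : ℤ) ≤ (c1 : ℤ) * (j + 1) := by positivity
        linarith
      have h7 : Φ.E * t - κ * m ≤ (c1 + Φ.E) * (j + 1) := by
        have : (0 : ℤ) ≤ (Φ.E : ℤ) * j := by positivity
        linarith
      have h8 : - α = |α| := (abs_of_nonpos hα).symm
      have h9 : |α| * (Φ.E * t - κ * m) ≤ |α| * ((c1 + Φ.E) * (j + 1)) :=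
        mul_le_mul_of_nonneg_left h7 (abs_nonneg _)
      rw [← h8] at h9 ⊢
      linarith
    have h8 : B ≤ B * (j + 1) := by
      have : (0 : ℤ) ≤ B * j := by positivity
      linarith
    rw [hC1]
    push_cast at h3 ⊢
    linarith

end Pool.Agent.Q57.GG
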