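import Pool.Agent.Q57.GG.GeoA
import Pool.Agent.Q57.GG.Psef
import Pool.Agent.Q57.FG.TopA
import Pool.Agent.Q57.GM.Top

/-!
The geography of models, for covers of the projective space: the main theorem.
-/

set_option autoImplicit false
set_option linter.overlappingInstances false
set_option linter.unusedSectionVars false
set_option maxHeartbeats 1000000

open FF MvPolynomial Pool.Agent.W603.LV Pool.Agent.W619.PQ
open Pool.Agent.W619.TW Pool.Agent.W602.GT Pool.Agent.TH122.AB Pool.Agent.TH756.PN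
open Pool.Agent.Y169.CH Pool.Agent.W602.Cov Pool.Agent.W602.Cov.G Pool.Agent.Y169.TH
open Pool.Agent.Q57.TP Pool.Agent.TH152.AC Pool.Agent.Q57.GM Pool.Agent.Q57.FG

namespace Pool.Agent.Q57.GG

/-- **The main theorem.** -/
theorem main_gg {d R p : ℕ} {K : Type} [Field K] [Algebra ℂ K] {x : Fin (d + 2) → K}
    (hx0 : x 0 ≠ 0)
    (hbas : IsTranscendenceBasis ℂ fun b : Fin (d + 1) => x b.succ / x 0)
    {F : Fin (d + 2) → MvPolynomial (Fin (d + 2)) ℂ} {dF : Fin (d + 2) → ℕ} (hd : ∀ k, 0 < dF k)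
    (hh : ∀ k, (F k).IsHomogeneous (dF k)) (hS : Snc F) {z : Fin R → K} {M : Fin R → ℕ}
    (hM : ∀ j, 0 < M j) {a : Fin R → Fin (d + 2) → ℕ}
    (hz : ∀ j, z j ^ M j = ∏ k, (aeval x (F k) / x 0 ^ dF k) ^ a j k)
    (hdiv : ∀ j, M j ∣ ∑ k, a j k * dF k)
    (hgen : IntermediateField.adjoin ℂ
      (Set.range (fun b : Fin (d + 1) => x b.succ / x 0) ∪ Set.range z) = ⊤)
    (hκ : d + 2 ≤ ∑ k, dF k)
    {c : Fin p → (Fin (d + 2) → ℕ) → ℚ} (hc0 : ∀ i, c i 0 = 0) (hc1 : ∀ i v, c i v ≤ 1)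
    (hmul : ∀ i v (r : ℕ), 1 ≤ r → Pool.Agent.Y169.TH.Adm M a v →
      1 - c i (r • v) ≤ r * (1 - c i v))
    (hfg : ∃ T : Finset (Fin (d + 2) → ℕ), (∀ s ∈ T, Pool.Agent.Y169.TH.Adm M a s) ∧
      ∀ v, Pool.Agent.Y169.TH.Adm M a v →
      ∃ w : (Fin (d + 2) → ℕ) → ℚ, (∀ s, 0 ≤ w s) ∧ (∀ k, ∑ s ∈ T, w s * s k ≤ v k) ∧
        ∀ i, 1 - c i v ≤ ∑ s ∈ T, w s * (1 - c i s)) {δ : Fin p → Place ℂ K → ℚ}
    (hδ : ∀ i P, δ i P = c i (mul F dF x P)) :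
    ∃ (N0 : ℕ) (g : Fin N0 → Fin p →₀ ℕ) (ω : Fin N0 → (Fin (d + 1) → Derivation ℂ K K) → K),
      (∀ b, g b ≠ 0 ∧ ω b ≠ 0 ∧ MSec (d + 1) δ (g b) (ω b)) ∧
      (∀ (P : Place ℂ K) (S : Finset K) (D : Fin (d + 1) → Derivation ℂ K K), ∃ C1 : ℕ,
        ∀ (μ : Fin p →₀ ℕ) (j : ℕ) (η : (Fin (d + 1) → Derivation ℂ K K) → K), μ ≠ 0 →
          ASec (d + 1) δ S μ j η → η D = 0 ∨ ((∀ b, ω b D ≠ 0) ∧
            ∃ e : Fin N0 → ℕ,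
              (∀ i, |∑ b, (e b : ℤ) * g b i - μ i| ≤ C1 * (j + 1)) ∧
              ∑ b, (e b : ℤ) * P.ord (ω b D) ≤ P.ord (η D) + C1 * (j + 1))) ∧
      ∀ lam : Fin p → ℝ, (∀ i, 0 ≤ lam i) →
        (PsefR (d + 1) δ lam ↔ ∃ t : Fin N0 → ℝ, (∀ b, 0 ≤ t b) ∧
          ∀ i, lam i = ∑ b, t b * g b i) := by
  classical
  obtain ⟨T, hT⟩ := exists_bigM hM hfg
  obtain ⟨Φ, rfl, C, rfl, rfl, hvv⟩ := exists_cv_d hx0 hbas hd hh hS hM hz hdiv hgen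
  have hcf : ∀ i, Coef C (c i) (δ i) := fun i =>
    ⟨hc0 i, hc1 i, fun P α v h => by rw [hδ, hvv P α v h]⟩
  have hκ' : 0 ≤ ∑ k, (Φ.dF k : ℤ) - (d + 2) := by
    have h1 : ((d + 2 : ℕ) : ℤ) ≤ ((∑ k, Φ.dF k : ℕ) : ℤ) := by exact_mod_cast hκ
    push_cast at h1
    linarith
  obtain ⟨N0, g, ω, h1, h2, D0, h3, h4⟩ := geoA C hcf hmul hT hκ'
  obtain ⟨P0, -⟩ := exists_divisorial C.u_bas C.bas_Y C.adj_le C.fin_Y
  have h2' : ∀ (P : Place ℂ K) (S : Finset K) (D : Fin (d + 1) → Derivation ℂ K K), ∃ C1 : ℕ,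
        ∀ (μ : Fin p →₀ ℕ) (j : ℕ) (η : (Fin (d + 1) → Derivation ℂ K K) → K), μ ≠ 0 →
          ASec (d + 1) δ S μ j η → η D = 0 ∨ ((∀ b, ω b D ≠ 0) ∧
            ∃ e : Fin N0 → ℕ,
              (∀ i, |∑ b, (e b : ℤ) * g b i - μ i| ≤ C1 * (j + 1)) ∧
              ∑ b, (e b : ℤ) * P.ord (ω b D) ≤ P.ord (η D) + C1 * (j + 1)) := by
    intro P S D
    obtain ⟨C1, hC1⟩ := h2 P S D
    exact ⟨C1, fun μ j η hμ hη => hC1 μ j η hμ (asec_iff.1 hη)⟩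
  refine ⟨N0, g, ω, fun b => ⟨(h1 b).1, fun h0 => h3 b (congrFun h0 D0), (h1 b).2⟩, h2', ?_⟩
  refine psefR_iff h1 (P := P0) h3 h4 fun S => ?_
  obtain ⟨C1, hC1⟩ := h2' P0 S D0
  refine ⟨C1, fun μ j η hμ hη => (hC1 μ j η hμ hη).imp id fun h => ?_⟩
  obtain ⟨-, e, he, -⟩ := h
  exact ⟨e, he⟩

end Pool.Agent.Q57.GG
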